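import Mathlib

/-!
# Power series over a perfect field of characteristic p, and p-degrees of fields
-/

set_option autoImplicit false
set_option linter.unusedSectionVars false

namespace Pool.Agent.TH282.RE

open MvPowerSeries

/-- over a perfect field every power series is a combination of p-th powers of power series with
the restricted monomials as coefficients -/
theorem frob_decomp {k : Type*} [Field k] (p : ℕ) [hp : Fact p.Prime] [CharP k p] [PerfectRing k p]
    {ι : Type*} [DecidableEq ι] [Fintype ι] (f : MvPowerSeries ι k) :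
    ∃ g : (ι → Fin p) → MvPowerSeries ι k,
      f = ∑ a : ι → Fin p, (∏ i, (X i : MvPowerSeries ι k) ^ (a i : ℕ)) * (g a) ^ p := by
  classical
  have hp0 : p ≠ 0 := hp.out.ne_zero
  let e : (ι → Fin p) → (ι →₀ ℕ) := fun a => Finsupp.equivFunOnFinite.symm fun i => (a i : ℕ)
  have he : ∀ a i, e a i = a i := fun a i => rfl
  have hmon : ∀ a : ι → Fin p, (∏ i, (X i : MvPowerSeries ι k) ^ (a i : ℕ)) = monomial (e a) 1 := by
    intro a
    rw [monomial_one_eq, Finsupp.prod_fintype]
    · rfl
    · intro i
      rw [pow_zero]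
  let g : (ι → Fin p) → MvPowerSeries ι k := fun a => fun b =>
    (frobeniusEquiv k p).symm (coeff (p • b + e a) f)
  have hg : ∀ a b, coeff b (g a) = (frobeniusEquiv k p).symm (coeff (p • b + e a) f) := fun a b => rfl
  refine ⟨g, ?_⟩
  ext γ
  rw [map_sum]
  have hterm : ∀ a : ι → Fin p, coeff γ ((∏ i, (X i : MvPowerSeries ι k) ^ (a i : ℕ)) * g a ^ p) =
      if (∀ i, γ i % p = (a i : ℕ)) then coeff γ f else 0 := by
    intro a
    rw [hmon, coeff_monomial_mul, one_mul, ← map_frobenius_expand p hp0, coeff_map]
    by_cases h : ∀ i, γ i % p = (a i : ℕ)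
    · rw [if_pos h]
      have h1 : e a ≤ γ := by
        intro i
        rw [he, ← h i]
        exact Nat.mod_le _ _
      rw [if_pos h1]
      obtain ⟨b, hb⟩ : ∃ b : ι →₀ ℕ, γ = p • b + e a := by
        refine ⟨Finsupp.equivFunOnFinite.symm fun i => γ i / p, ?_⟩
        ext i
        simp only [Finsupp.coe_add, Finsupp.coe_smul, Pi.add_apply, Pi.smul_apply, smul_eq_mul, he]
        rw [← h i]
        exact (Nat.div_add_mod (γ i) p).symm
      have h2 : γ - e a = p • b := by
        rw [hb]
        exact add_tsub_cancel_right _ _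
      rw [h2, coeff_expand_smul, hg, frobenius_apply_frobeniusEquiv_symm, ← hb]
    · rw [if_neg h]
      split_ifs with h1
      · push Not at h
        obtain ⟨i, hi⟩ := h
        rw [coeff_expand_of_not_dvd p hp0 _ (i := i), map_zero]
        intro h2
        apply hi
        have h3 : (γ - e a) i = γ i - (a i : ℕ) := rfl
        rw [h3] at h2
        have h4 : (a i : ℕ) ≤ γ i := h1 i
        have h5 : (a i : ℕ) < p := (a i).2
        obtain ⟨q, hq⟩ := h2
        have h6 : γ i = p * q + (a i : ℕ) := by omega
        rw [h6, Nat.mul_add_mod, Nat.mod_eq_of_lt h5]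
      · rfl
  rw [Finset.sum_congr rfl fun a _ => hterm a]
  rw [Finset.sum_eq_single (fun i => (⟨γ i % p, Nat.mod_lt _ hp.out.pos⟩ : Fin p))]
  · rw [if_pos]
    intro i
    rfl
  · intro a _ ha
    rw [if_neg]
    intro h
    apply ha
    funext i
    exact Fin.ext (h i).symm
  · intro h
    exact absurd (Finset.mem_univ _) h

end Pool.Agent.TH282.RE
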