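import Pool.Agent.TH282.RP.Sep
import Pool.Agent.TH282.RP.Frob
import Pool.Agent.TH282.RE.Ev
import Pool.Agent.TH282.RE.Sop

/-!
# The p-degree of the residue field of a prime
-/

set_option autoImplicit false
set_option linter.unusedSectionVars false

namespace Pool.Agent.TH282.RE

open IsLocalRing

section

variable (k : Type*) [Field k] (p : ℕ) [hp : Fact p.Prime] [CharP k p] [PerfectRing k p]
  {R : Type*} [CommRing R] [Algebra k R] [IsLocalRing R] [IsNoetherianRing R]
  [Module.Finite k (ResidueField R)]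
  {L : Type*} [Field L] [CharP L p] (π : R →+* L)

include k in
theorem pindep_le (hc : IsAdicComplete (maximalIdeal R) R) (hgen : Subfield.closure (Set.range π) = ⊤)
    (P : Ideal R) [hP : P.IsPrime] (hker : RingHom.ker π = P) (c : ℕ)
    (hdim : ringKrullDim (R ⧸ P) = (c : WithBot ℕ∞))
    (z : ℕ → L) (m : ℕ) (hz : ∀ j < m, z j ∉ ch (Lp L p) z j) : m ≤ c := by
  classical
  have : IsLocalRing (R ⧸ P) := IsLocalRing.of_surjective' (Ideal.Quotient.mk P) Ideal.Quotient.mk_surjective
  obtain ⟨s, hs1, hs2, hs3⟩ := exists_sop (R ⧸ P)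
  have hcs : s.card = c := by
    rw [hs3] at hdim
    exact_mod_cast hdim
  have hloc : IsLocalHom (Ideal.Quotient.mk P) :=
    IsLocalHom.of_surjective (Ideal.Quotient.mk P) Ideal.Quotient.mk_surjective
  let e := s.equivFinOfCardEq hcs
  have hlift : ∀ l : Fin c, ∃ y : R, y ∈ maximalIdeal R ∧ Ideal.Quotient.mk P y = (e.symm l : R ⧸ P) := by
    intro l
    obtain ⟨y, hy⟩ := Ideal.Quotient.mk_surjective (e.symm l : R ⧸ P)
    refine ⟨y, ?_, hy⟩
    have h1 := hs1 _ (e.symm l).2
    rw [← hy] at h1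
    exact ((IsLocalRing.local_hom_TFAE (Ideal.Quotient.mk P)).out 0 4).mp hloc ▸ h1
  choose y hym hy using hlift
  obtain ⟨φ, hφ⟩ := exists_eval (k := k) hc y hym
  have hres : Module.Finite k (ResidueField (R ⧸ P)) := by
    let f : ResidueField R →ₗ[k] ResidueField (R ⧸ P) :=
      { toFun := ResidueField.map (Ideal.Quotient.mk P)
        map_add' := map_add _
        map_smul' := by
          intro a b
          obtain ⟨r, rfl⟩ := IsLocalRing.residue_surjective b
          rw [RingHom.id_apply, ResidueField.map_residue, Algebra.smul_def, Algebra.smul_def, map_mul,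
            ResidueField.map_residue]
          rfl }
    refine Module.Finite.of_surjective f ?_
    intro b
    obtain ⟨r, rfl⟩ := IsLocalRing.residue_surjective b
    obtain ⟨r, rfl⟩ := Ideal.Quotient.mk_surjective r
    exact ⟨residue R r, ResidueField.map_residue _ r⟩
  let _ : Algebra (MvPowerSeries (Fin c) k) (R ⧸ P) := ((Ideal.Quotient.mk P).comp φ.toRingHom).toAlgebra
  have hal : ∀ a, algebraMap (MvPowerSeries (Fin c) k) (R ⧸ P) a = Ideal.Quotient.mk P (φ a) := fun a => rfl
  have : IsScalarTower k (MvPowerSeries (Fin c) k) (R ⧸ P) := IsScalarTower.of_algebraMap_eq fun r => by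
    rw [hal, AlgHom.commutes]
    rfl
  have hfin : Module.Finite (MvPowerSeries (Fin c) k) (R ⧸ P) := by
    refine finite_over (k := k) (x := fun l => Ideal.Quotient.mk P (y l)) ?_ ?_ ?_ (R ⧸ P)
    · intro l
      rw [hy]
      exact hs1 _ (e.symm l).2
    · obtain ⟨t, ht⟩ := hs2
      refine ⟨t, ht.trans (Ideal.span_mono ?_)⟩
      intro r hr
      exact ⟨e ⟨r, hr⟩, by
        simp only [hy]
        simp⟩
    · intro l
      rw [hal, hφ]
  let π' : (R ⧸ P) →+* L := Ideal.Quotient.lift P π (fun a ha => by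
    rw [← hker] at ha
    exact ha)
  have hπ' : ∀ r, π' (Ideal.Quotient.mk P r) = π r := fun r => Ideal.Quotient.lift_mk _ _ _
  have hgen' : Subfield.closure (Set.range π') = ⊤ := by
    rw [← hgen]
    congr 1
    ext w
    constructor
    · rintro ⟨r, rfl⟩
      obtain ⟨r, rfl⟩ := Ideal.Quotient.mk_surjective r
      exact ⟨r, (hπ' r).symm⟩
    · rintro ⟨r, rfl⟩
      exact ⟨Ideal.Quotient.mk P r, hπ' r⟩
  have hfd := adjoin_FA (A := MvPowerSeries (Fin c) k) π' hgen'
  let Y : ℕ → L := fun i => if h : i < c then π (y ⟨i, h⟩) else 0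
  have hY : ∀ i : Fin c, Y i = π' (algebraMap (MvPowerSeries (Fin c) k) (R ⧸ P) (MvPowerSeries.X i)) := by
    intro i
    rw [hal, hφ, hπ']
    exact dif_pos i.2
  have : CharP (MvPowerSeries (Fin c) k) p := by
    have h1 : Nontrivial (MvPowerSeries (Fin c) k) := inferInstance
    rw [CharP.charP_iff_prime_eq_zero hp.out, ← map_natCast (algebraMap k (MvPowerSeries (Fin c) k)),
      CharP.cast_eq_zero, map_zero]
  refine pdeg_le p (FA (MvPowerSeries (Fin c) k) π') (Module.finrank_pos (R := FA (MvPowerSeries (Fin c) k) π')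
    (M := L)).ne' c Y ?_ ?_ z m hz
  · intro i
    by_cases h : i < c
    · have := hY ⟨i, h⟩
      rw [show Y i = Y (⟨i, h⟩ : Fin c) from rfl, this]
      exact mem_FA _ _
    · have : Y i = 0 := dif_neg h
      rw [this]
      exact zero_mem _
  · conv_lhs => rw [FA]
    rw [Subfield.closure_le]
    rintro _ ⟨a, rfl⟩
    obtain ⟨g, hg⟩ := frob_decomp p a
    rw [SetLike.mem_coe]
    beta_reduce
    rw [hg, map_sum, map_sum]
    refine sum_mem fun b _ => ?_
    rw [map_mul, map_mul, map_pow, map_pow, map_prod, map_prod]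
    refine mul_mem (prod_mem fun i _ => ?_) ?_
    · rw [map_pow, map_pow, ← hY]
      exact pow_mem (mem_ch _ _ i.2) _
    · exact le_ch _ _ _ ⟨_, mem_FA π' (g b), rfl⟩

end

end Pool.Agent.TH282.RE
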