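import Mathlib

/-!
# Coefficient fields: perfect residue field of characteristic p
-/

set_option autoImplicit false
set_option linter.unusedSectionVars false

namespace Pool.Agent.TH282.RE

open IsLocalRing

theorem exists_coeff_perfect {R : Type*} [CommRing R] [IsLocalRing R] (p : ℕ) [hp : Fact p.Prime]
    [CharP R p] [hperf : PerfectRing (ResidueField R) p]
    (hc : IsAdicComplete (maximalIdeal R) R) :
    ∃ φ : ResidueField R →+* R, ∀ a, residue R (φ a) = a := by
  have hQ : CharP (R ⧸ maximalIdeal R) p := by
    rw [CharP.charP_iff_prime_eq_zero hp.out, ← map_natCast (Ideal.Quotient.mk (maximalIdeal R)),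
      CharP.cast_eq_zero, map_zero]
  have hQ' : CharP (ResidueField R) p := hQ
  have hperf' : PerfectRing (R ⧸ maximalIdeal R) p := hperf
  let T : Perfection (R ⧸ maximalIdeal R) p →+* R :=
    { Perfection.teichmuller p (maximalIdeal R) with
      map_zero' := Perfection.teichmuller_zero
      map_add' := by
        intro x y
        refine Perfection.teichmuller_spec fun n => ?_
        refine ⟨(Perfection.coeff _ p n x).out + (Perfection.coeff _ p n y).out, by simp, ?_⟩
        rw [add_pow_char_pow]
        refine (Perfection.teichmuller_sModEq ?_).symm.add (Perfection.teichmuller_sModEq ?_).symm <;> simp }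
  have hT : ∀ x, Ideal.Quotient.mk (maximalIdeal R) (T x) = Perfection.coeff _ p 0 x :=
    Perfection.mk_teichmuller
  refine ⟨T.comp (Perfection.lift p (R ⧸ maximalIdeal R) (R ⧸ maximalIdeal R) (RingHom.id _)), ?_⟩
  intro a
  change Ideal.Quotient.mk (maximalIdeal R) (T _) = a
  rw [hT]
  have := (Perfection.lift p (R ⧸ maximalIdeal R) (R ⧸ maximalIdeal R)).symm_apply_apply (RingHom.id _)
  exact RingHom.congr_fun this a

end Pool.Agent.TH282.RE
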