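import Pool.Agent.TH282.RP.Pdeg

/-!
# Separability from p-generation
-/

set_option autoImplicit false
set_option linter.unusedSectionVars false

namespace Pool.Agent.TH282.RE

section

variable {A R L : Type*} [CommRing A] [CommRing R] [Algebra A R] [Field L] (π : R →+* L)

/-- the field generated by the image of `A` -/
def FA (A : Type*) {R L : Type*} [CommRing A] [CommRing R] [Algebra A R] [Field L] (π : R →+* L) : Subfield L :=
  Subfield.closure (Set.range fun a : A => π (algebraMap A R a))

theorem mem_FA (a : A) : π (algebraMap A R a) ∈ FA A π := Subfield.subset_closure ⟨a, rfl⟩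

/-- the map to the field generated by the image -/
def toFA (A : Type*) {R L : Type*} [CommRing A] [CommRing R] [Algebra A R] [Field L] (π : R →+* L) : A →+* FA A π :=
  (π.comp (algebraMap A R)).codRestrict (FA A π) (fun a => mem_FA π a)

theorem toFA_coe (a : A) : ((toFA A π a : FA A π) : L) = π (algebraMap A R a) := rfl

theorem isIntegral_FA [Algebra.IsIntegral A R] (r : R) : IsIntegral (FA A π) (π r) := by
  obtain ⟨f, hf, hfr⟩ := Algebra.IsIntegral.isIntegral (R := A) r
  refine ⟨f.map (toFA A π), hf.map _, ?_⟩
  rw [Polynomial.eval₂_map]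
  have h1 : (algebraMap (FA A π) L).comp (toFA A π) = π.comp (algebraMap A R) := rfl
  rw [h1, ← Polynomial.hom_eval₂, hfr, map_zero]

theorem adjoin_FA [Module.Finite A R] (hgen : Subfield.closure (Set.range π) = ⊤) :
    FiniteDimensional (FA A π) L := by
  classical
  obtain ⟨s, hs⟩ := (inferInstance : Module.Finite A R).fg_top
  have h1 : FiniteDimensional (FA A π) (IntermediateField.adjoin (FA A π) (π '' (s : Set R))) := by
    have : Finite (π '' (s : Set R) : Set L) := (s.finite_toSet.image π).to_subtype
    apply IntermediateField.finiteDimensional_adjoin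
    rintro _ ⟨r, -, rfl⟩
    exact isIntegral_FA π r
  have h2 : IntermediateField.adjoin (FA A π) (π '' (s : Set R)) = ⊤ := by
    rw [eq_top_iff]
    have h3 : ∀ r : R, π r ∈ IntermediateField.adjoin (FA A π) (π '' (s : Set R)) := by
      intro r
      have hr : r ∈ Submodule.span A (s : Set R) := by
        rw [hs]
        trivial
      induction hr using Submodule.span_induction with
      | mem r hr => exact IntermediateField.subset_adjoin _ _ ⟨r, hr, rfl⟩
      | zero =>
        rw [map_zero]
        exact zero_mem _
      | add a b _ _ ha hb =>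
        rw [map_add]
        exact add_mem ha hb
      | smul a r _ hr =>
        rw [Algebra.smul_def, map_mul]
        exact mul_mem ((IntermediateField.adjoin (FA A π) (π '' (s : Set R))).algebraMap_mem
          ⟨_, mem_FA π a⟩) hr
    intro x _
    have h4 : (⊤ : Subfield L) ≤ (IntermediateField.adjoin (FA A π) (π '' (s : Set R))).toSubfield := by
      rw [← hgen, Subfield.closure_le]
      rintro _ ⟨r, rfl⟩
      exact h3 r
    exact h4 trivial
  rw [h2] at h1
  exact (IntermediateField.topEquiv (F := FA A π) (E := L)).toLinearEquiv.finiteDimensional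

theorem common_den (S : Finset ℕ) (c : ℕ → FA A π) :
    ∃ z : A, π (algebraMap A R z) ≠ 0 ∧ ∀ i ∈ S, ∃ a : A, (c i : L) * π (algebraMap A R z) = π (algebraMap A R a) := by
  classical
  have h1 : ∀ c : FA A π, ∃ a b : A, π (algebraMap A R b) ≠ 0 ∧
      (c : L) * π (algebraMap A R b) = π (algebraMap A R a) := by
    intro c
    obtain ⟨y, hy, z, hz, hyz⟩ := Subfield.mem_closure_iff.mp c.2
    have hr : Subring.closure (Set.range fun a : A => π (algebraMap A R a)) ≤
        (π.comp (algebraMap A R)).range := by
      rw [Subring.closure_le]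
      rintro _ ⟨a, rfl⟩
      exact ⟨a, rfl⟩
    obtain ⟨a, ha⟩ := hr hy
    obtain ⟨b, hb⟩ := hr hz
    by_cases hz0 : z = 0
    · refine ⟨0, 1, ?_, ?_⟩
      · rw [map_one, map_one]
        exact one_ne_zero
      · rw [← hyz, hz0, div_zero, zero_mul, map_zero, map_zero]
    · refine ⟨a, b, ?_, ?_⟩
      · change (π.comp (algebraMap A R)) b ≠ 0
        rw [hb]
        exact hz0
      · change (c : L) * (π.comp (algebraMap A R)) b = (π.comp (algebraMap A R)) a
        rw [ha, hb, ← hyz, div_mul_cancel₀ _ hz0]
  induction S using Finset.induction_on with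
  | empty => exact ⟨1, by rw [map_one, map_one]; exact one_ne_zero, by simp⟩
  | insert j S hj ih =>
    obtain ⟨z, hz, h⟩ := ih
    obtain ⟨a, b, hb, hab⟩ := h1 (c j)
    refine ⟨b * z, ?_, ?_⟩
    · rw [map_mul, map_mul]
      exact mul_ne_zero hb hz
    · intro i hi
      rcases Finset.mem_insert.mp hi with rfl | hi
      · refine ⟨a * z, ?_⟩
        rw [map_mul, map_mul, map_mul, map_mul, ← hab]
        ring
      · obtain ⟨a', ha'⟩ := h i hi
        refine ⟨b * a', ?_⟩
        rw [map_mul, map_mul, map_mul, map_mul, ← ha']
        ring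

variable (p : ℕ) [hp : Fact p.Prime] [CharP L p]

theorem isSeparable_FA [Module.Finite A R] (hgen : Subfield.closure (Set.range π) = ⊤)
    (h : Lp L p ⊔ FA A π = ⊤) : Algebra.IsSeparable (FA A π) L := by
  have hfd := adjoin_FA (A := A) π hgen
  have : Subsingleton (Ω[L⁄(FA A π)]) := by
    have h1 : ∀ x : L, KaehlerDifferential.D (FA A π) L x = 0 := by
      let K : Subfield L :=
        { carrier := {x | KaehlerDifferential.D (FA A π) L x = 0}
          mul_mem' := by
            intro a b ha hb
            simp only [Set.mem_ofPred_eq] at ha hb ⊢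
            rw [Derivation.leibniz, ha, hb, smul_zero, smul_zero, add_zero]
          one_mem' := by simp
          add_mem' := by
            intro a b ha hb
            simp only [Set.mem_ofPred_eq] at ha hb ⊢
            rw [map_add, ha, hb, add_zero]
          zero_mem' := by simp
          neg_mem' := by
            intro a ha
            simp only [Set.mem_ofPred_eq] at ha ⊢
            rw [map_neg, ha, neg_zero]
          inv_mem' := by
            intro a ha
            simp only [Set.mem_ofPred_eq] at ha ⊢
            rw [Derivation.leibniz_inv, ha, smul_zero] }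
      have h2 : (⊤ : Subfield L) ≤ K := by
        rw [← h, sup_le_iff]
        constructor
        · rintro _ ⟨y, rfl⟩
          change KaehlerDifferential.D (FA A π) L (y ^ p) = 0
          rw [Derivation.leibniz_pow, ← Nat.cast_smul_eq_nsmul L, CharP.cast_eq_zero, zero_smul]
        · intro y hy
          exact Derivation.map_algebraMap (KaehlerDifferential.D (FA A π) L) (⟨y, hy⟩ : FA A π)
      intro x
      exact h2 (show x ∈ (⊤ : Subfield L) from trivial)
    have h3 : (⊤ : Submodule L (Ω[L⁄(FA A π)])) = ⊥ := by
      rw [← KaehlerDifferential.span_range_derivation, Submodule.span_eq_bot]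
      rintro _ ⟨x, rfl⟩
      exact h1 x
    exact (Submodule.subsingleton_iff L).mp (subsingleton_of_bot_eq_top h3.symm)
  have h4 : Algebra.FormallyUnramified (FA A π) L := ⟨this⟩
  exact Algebra.FormallyUnramified.isSeparable _ _

theorem exists_sep_p [Module.Finite A R] (hgen : Subfield.closure (Set.range π) = ⊤)
    (h : Lp L p ⊔ FA A π = ⊤) (x : R) :
    ∃ F : Polynomial A, π (Polynomial.aeval x F) = 0 ∧ π (Polynomial.aeval x F.derivative) ≠ 0 := by
  have hsep := isSeparable_FA (A := A) π p hgen h
  have hs : (minpoly (FA A π) (π x)).Separable := Algebra.IsSeparable.isSeparable _ _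
  set μ := minpoly (FA A π) (π x) with hμ
  obtain ⟨z, hz, hc⟩ := common_den π (Finset.range (μ.natDegree + 1)) μ.coeff
  have hc' : ∀ i, ∃ a : A, (μ.coeff i : L) * π (algebraMap A R z) = π (algebraMap A R a) := by
    intro i
    by_cases hi : i ∈ Finset.range (μ.natDegree + 1)
    · exact hc i hi
    · refine ⟨0, ?_⟩
      rw [Polynomial.coeff_eq_zero_of_natDegree_lt (by
        rw [Finset.mem_range] at hi
        omega), map_zero, map_zero]
      simp
  choose a ha using hc'
  let F : Polynomial A := ∑ i ∈ Finset.range (μ.natDegree + 1), Polynomial.monomial i (a i)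
  have hFc : ∀ i, F.coeff i = if i ∈ Finset.range (μ.natDegree + 1) then a i else 0 := by
    intro i
    rw [Polynomial.finsetSum_coeff]
    simp only [Polynomial.coeff_monomial]
    rw [Finset.sum_ite_eq' (Finset.range (μ.natDegree + 1)) i a]
  have hF : F.map (toFA A π) = Polynomial.C (toFA A π z) * μ := by
    ext i
    rw [Polynomial.coeff_map, Polynomial.coeff_C_mul, hFc, MulMemClass.coe_mul, toFA_coe]
    split_ifs with hi
    · rw [toFA_coe, mul_comm, ha i]
    · rw [Polynomial.coeff_eq_zero_of_natDegree_lt (by
        rw [Finset.mem_range] at hi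
        omega), map_zero]
      simp
  have hev : ∀ G : Polynomial A, π (Polynomial.aeval x G) = Polynomial.aeval (π x) (G.map (toFA A π)) := by
    intro G
    rw [Polynomial.aeval_def, Polynomial.aeval_def, Polynomial.eval₂_map, Polynomial.hom_eval₂]
    rfl
  refine ⟨F, ?_, ?_⟩
  · rw [hev, hF, map_mul, minpoly.aeval, mul_zero]
  · rw [hev, ← Polynomial.derivative_map, hF, Polynomial.derivative_C_mul, map_mul, Polynomial.aeval_C]
    refine mul_ne_zero ?_ (hs.aeval_derivative_ne_zero (minpoly.aeval _ _))
    exact hz

end

end Pool.Agent.TH282.RE
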