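import Pool.Agent.TH282.RE.Param
import Pool.Agent.TH282.RP.Sep

/-!
# Systems of parameters adapted to a regular point in characteristic p
-/

set_option autoImplicit false
set_option linter.unusedSectionVars false

namespace Pool.Agent.TH282.RE

open IsLocalRing

theorem coset_avoid_pow {R : Type*} [CommRing R] (S : Finset (Ideal R)) (hp : ∀ Q ∈ S, Q.IsPrime)
    (hanti : ∀ Q ∈ S, ∀ Q' ∈ S, Q ≤ Q' → Q = Q') (b : Ideal R) (g : R) (n : ℕ) (hn : n ≠ 0)
    (hb : ∀ Q ∈ S, ¬ b ≤ Q) : ∃ z ∈ b, ∀ Q ∈ S, g + z ^ n ∉ Q := by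
  classical
  obtain ⟨S₁, hS₁⟩ : ∃ S₁ : Finset (Ideal R), ∀ Q, Q ∈ S₁ ↔ Q ∈ S ∧ g ∈ Q :=
    ⟨S.filter fun Q => g ∈ Q, fun Q => Finset.mem_filter⟩
  obtain ⟨S₂, hS₂⟩ : ∃ S₂ : Finset (Ideal R), ∀ Q, Q ∈ S₂ ↔ Q ∈ S ∧ g ∉ Q :=
    ⟨S.filter fun Q => g ∉ Q, fun Q => Finset.mem_filter⟩
  obtain ⟨c, hc⟩ : ∃ c : Ideal R, c = b * ∏ Q ∈ S₂, Q := ⟨_, rfl⟩
  have h1 : ∀ Q ∈ S₁, ¬ c ≤ Q := by
    intro Q hQ hcQ
    have hQ' := (hS₁ Q).mp hQ
    rw [hc] at hcQ
    rcases ((hp Q hQ'.1).mul_le.mp hcQ) with h | h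
    · exact hb Q hQ'.1 h
    · obtain ⟨Q', hQ'2, h⟩ := ((hp Q hQ'.1).prod_le).mp h
      have h3 := (hS₂ Q').mp hQ'2
      have h4 := hanti Q' h3.1 Q hQ'.1 h
      apply h3.2
      rw [h4]
      exact hQ'.2
  have h2 : ¬ ((c : Set R) ⊆ ⋃ Q ∈ (S₁ : Set (Ideal R)), ((fun Q : Ideal R => Q) Q : Set R)) := by
    intro h
    have h3 := (Ideal.subset_union_prime (s := S₁) (f := fun Q : Ideal R => Q) ⊤ ⊤
      (fun Q hQ _ _ => hp Q ((hS₁ Q).mp hQ).1)).mp h
    obtain ⟨Q, hQ, h⟩ := h3
    exact h1 Q hQ h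
  rw [Set.not_subset] at h2
  obtain ⟨z, hz, hz'⟩ := h2
  have hzb : z ∈ b := by
    rw [hc] at hz
    exact Ideal.mul_le_left hz
  refine ⟨z, hzb, ?_⟩
  intro Q hQ hgz
  by_cases hg : g ∈ Q
  · apply hz'
    rw [Set.mem_iUnion₂]
    refine ⟨Q, (hS₁ Q).mpr ⟨hQ, hg⟩, ?_⟩
    have h3 : z ^ n = (g + z ^ n) - g := by ring
    have h4 : z ^ n ∈ Q := by
      rw [h3]
      exact Q.sub_mem hgz hg
    exact (hp Q hQ).mem_of_pow_mem _ h4
  · have h3 : z ∈ Q := by
      have h4 : c ≤ Q := by
        rw [hc]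
        exact Ideal.mul_le_right.trans
          (Ideal.prod_le_inf.trans (Finset.inf_le ((hS₂ Q).mpr ⟨hQ, hg⟩)))
      exact h4 hz
    apply hg
    have : g = (g + z ^ n) - z ^ n := by ring
    rw [this]
    exact Q.sub_mem hgz (Ideal.pow_mem_of_mem _ h3 n (Nat.pos_of_ne_zero hn))

theorem ch_congr {L : Type*} [Field L] (K : Subfield L) {y y' : ℕ → L} {j : ℕ} (h : ∀ l < j, y l = y' l) :
    ch K y j = ch K y' j := by
  rw [ch, ch]
  congr 2
  ext x
  constructor
  · rintro ⟨l, hl, rfl⟩
    exact ⟨l, hl, (h l hl).symm⟩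
  · rintro ⟨l, hl, rfl⟩
    exact ⟨l, hl, h l hl⟩

section

variable {R : Type*} [CommRing R] [IsLocalRing R] [IsNoetherianRing R]

theorem exists_seq_gen (d : ℕ) (hd : ringKrullDim R = d) (Good : ℕ → (ℕ → R) → Prop)
    (h0 : Good 0 fun _ => 0)
    (step : ∀ i < d, ∀ t : ℕ → R, Good i t → ∀ S : Finset (Ideal R),
      (∀ Q ∈ S, Q ∈ (Ideal.span (t '' (Finset.range i : Set ℕ))).minimalPrimes ∧
        ∃ n : ℕ, ringKrullDim (R ⧸ Q) = n ∧ n + i = d) →
      ∃ z : R, (∀ Q ∈ S, z ∉ Q) ∧ Good (i + 1) (Function.update t i z)) :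
    ∀ i ≤ d, ∃ t : ℕ → R, Good i t ∧
      ∀ Q : Ideal R, Q.IsPrime → (∀ j < i, t j ∈ Q) → ∀ n : ℕ, ringKrullDim (R ⧸ Q) = n → n + i ≤ d := by
  classical
  intro i
  induction i with
  | zero =>
    intro _
    refine ⟨fun _ => 0, h0, ?_⟩
    intro Q _ _ n hn
    have h1 : ringKrullDim (R ⧸ Q) ≤ ringKrullDim R := ringKrullDim_quotient_le Q
    rw [hn, hd] at h1
    have h2 : n ≤ d := by exact_mod_cast h1
    omega
  | succ i ih =>
    intro hi
    obtain ⟨t, ht1, ht2⟩ := ih (by omega)
    set I := Ideal.span (t '' (Finset.range i : Set ℕ)) with hI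
    have hfin : I.minimalPrimes.Finite := Ideal.finite_minimalPrimes_of_isNoetherianRing R I
    let S : Finset (Ideal R) := hfin.toFinset.filter fun Q =>
      ∃ n : ℕ, ringKrullDim (R ⧸ Q) = n ∧ n + i = d
    have hS : ∀ Q ∈ S, Q ∈ I.minimalPrimes ∧ ∃ n : ℕ, ringKrullDim (R ⧸ Q) = n ∧ n + i = d := fun Q hQ =>
      ⟨hfin.mem_toFinset.mp (Finset.mem_filter.mp hQ).1, (Finset.mem_filter.mp hQ).2⟩
    obtain ⟨z, hz', hz⟩ := step i (by omega) t ht1 S hS
    refine ⟨Function.update t i z, hz, ?_⟩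
    intro Q hQ hQt n hn
    have hQt' : ∀ j < i, t j ∈ Q := by
      intro j hj
      have := hQt j (by omega)
      rwa [Function.update_of_ne (by omega)] at this
    have hQi : z ∈ Q := by
      have := hQt i (by omega)
      rwa [Function.update_self] at this
    have hIQ : I ≤ Q := by
      rw [hI, Ideal.span_le]
      rintro _ ⟨j, hj, rfl⟩
      exact hQt' j (Finset.mem_range.mp hj)
    obtain ⟨Q', hQ', hQQ'⟩ := Ideal.exists_minimalPrimes_le hIQ
    have hQ'p : Q'.IsPrime := hQ'.1.1
    obtain ⟨n', hn'⟩ := exists_dim Q'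
    have h3 := ht2 Q' hQ'p (fun j hj => hQ'.1.2 (Ideal.subset_span
      ⟨j, Finset.mem_coe.mpr (Finset.mem_range.mpr hj), rfl⟩)) n' hn'
    by_cases h4 : n' + i = d
    · have h5 : Q' ∈ S := Finset.mem_filter.mpr ⟨hfin.mem_toFinset.mpr hQ', n', hn', h4⟩
      have h6 := dim_lt Q' Q hQQ' hQi (hz' Q' h5)
      rw [hn, hn'] at h6
      have h7 : n + 1 ≤ n' := by exact_mod_cast h6
      omega
    · have h6 : ringKrullDim (R ⧸ Q) ≤ ringKrullDim (R ⧸ Q') :=
        ringKrullDim_le_of_surjective (Ideal.Quotient.factor hQQ') (Ideal.Quotient.factor_surjective hQQ')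
      rw [hn, hn'] at h6
      have h7 : n ≤ n' := by exact_mod_cast h6
      omega

theorem exists_param_p (p : ℕ) [hp : Fact p.Prime] {L : Type*} [Field L] [CharP L p] (π : R →+* L)
    (hgen : Subfield.closure (Set.range π) = ⊤)
    (P : Ideal R) [P.IsPrime] (hker : RingHom.ker π = P)
    (hreg : IsRegularLocalRing (Localization.AtPrime P))
    (d : ℕ) (hd : ringKrullDim R = d) (c : ℕ) (hdim : ringKrullDim (R ⧸ P) = (c : WithBot ℕ∞))
    (hind : ∀ (z : ℕ → L) (m : ℕ), (∀ j < m, z j ∉ ch (Lp L p) z j) → m ≤ c) :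
    ∃ x : Fin d → R, (∀ l, x l ∈ maximalIdeal R) ∧
      (∃ T, maximalIdeal R ^ T ≤ Ideal.span (Set.range x)) ∧
      (∀ p ∈ P, ∃ s, s ∉ P ∧ s * p ∈ Ideal.span {y | (∃ l, x l = y) ∧ y ∈ P}) ∧
      Lp L p ⊔ Subfield.closure (Set.range fun l => π (x l)) = ⊤ := by
  classical
  have hPp : P.IsPrime := inferInstance
  have hPm : P ≤ maximalIdeal R := le_maximalIdeal hPp.ne_top
  obtain ⟨T, hTcard, hTspan⟩ := Submodule.FG.exists_span_finset_card_eq_spanFinrank
    (IsNoetherian.noetherian (maximalIdeal (Localization.AtPrime P)))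
  have hht : ((T.card : ℕ) : WithBot ℕ∞) = P.height := by
    rw [hTcard, hreg.spanFinrank_maximalIdeal, IsLocalization.AtPrime.ringKrullDim_eq_height P]
  have hht' : ((T.card : ℕ) : ℕ∞) = P.height := by exact_mod_cast hht
  have hcd : T.card ≤ d := by
    have h1 : (P.height : WithBot ℕ∞) ≤ ringKrullDim R := Ideal.height_le_ringKrullDim_of_ne_top hPp.ne_top
    rw [← hht, hd] at h1
    exact_mod_cast h1
  have hfrac : ∀ τ : T, ∃ a : R, a ∈ P ∧ ∃ u : Localization.AtPrime P,
      (τ : Localization.AtPrime P) = u * algebraMap R (Localization.AtPrime P) a := by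
    rintro ⟨τ, hτ⟩
    have hτ' : τ ∈ maximalIdeal (Localization.AtPrime P) := by
      rw [← hTspan]
      exact Submodule.subset_span hτ
    obtain ⟨a, s, rfl⟩ := IsLocalization.exists_mk'_eq P.primeCompl τ
    refine ⟨a, ?_, IsLocalization.mk' _ 1 s, ?_⟩
    · have h1 := Ideal.mul_mem_right (algebraMap R (Localization.AtPrime P) s) _ hτ'
      rw [IsLocalization.mk'_spec] at h1
      exact (IsLocalization.AtPrime.to_map_mem_maximal_iff (Localization.AtPrime P) P a).mp h1
    · rw [mul_comm, ← IsLocalization.mk'_eq_mul_mk'_one]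
  choose a haP u hu using hfrac
  let g : ℕ → R := fun i => if hi : i < T.card then a (T.equivFin.symm ⟨i, hi⟩) else 0
  have hg1 : ∀ i (hi : i < T.card), g i = a (T.equivFin.symm ⟨i, hi⟩) := fun i hi => dif_pos hi
  have hP2 : P ^ 2 ≤ P := Ideal.pow_le_self two_ne_zero
  have htP : ∀ (t : ℕ → R) (j : ℕ), j < T.card → t j - g j ∈ P ^ 2 → t j ∈ P := by
    intro t j h2 h1
    have h3 : t j = (t j - g j) + g j := by ring
    rw [h3]
    refine P.add_mem (hP2 h1) ?_
    rw [hg1 j h2]
    exact haP _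
  have hdimm : ringKrullDim (R ⧸ maximalIdeal R) = 0 := by
    have : IsField (R ⧸ maximalIdeal R) :=
      (Ideal.Quotient.maximal_ideal_iff_isField_quotient _).mp (maximalIdeal.isMaximal R)
    exact ringKrullDim_eq_zero_of_isField this
  let Y : (ℕ → R) → ℕ → L := fun t l => π (t (T.card + l))
  let Good : ℕ → (ℕ → R) → Prop := fun i t =>
    (∀ j < i, j < T.card → t j - g j ∈ P ^ 2) ∧ (∀ j < i, t j ∈ maximalIdeal R) ∧
      ∀ l, T.card + l < i → ch (Lp L p) (Y t) l = ⊤ ∨ Y t l ∉ ch (Lp L p) (Y t) l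
  have hex : ∀ (E : Subfield L), Lp L p ≤ E → E ≠ ⊤ → ∃ z ∈ maximalIdeal R, π z ∉ E := by
    intro E hE hEt
    by_contra hcon
    push Not at hcon
    apply hEt
    by_cases hm : ∃ z₀ ∈ maximalIdeal R, z₀ ∉ P
    · obtain ⟨z₀, hz₀, hz₀P⟩ := hm
      rw [eq_top_iff, ← hgen, Subfield.closure_le]
      rintro _ ⟨a, rfl⟩
      have h1 : π z₀ ≠ 0 := by
        intro h
        apply hz₀P
        rw [← hker]
        exact h
      have h2 : π a = π (a * z₀) / π z₀ := by
        rw [map_mul, mul_div_cancel_right₀ _ h1]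
      rw [SetLike.mem_coe, h2]
      exact div_mem (hcon _ (Ideal.mul_mem_left _ _ hz₀)) (hcon _ hz₀)
    · push Not at hm
      have h1 : P = maximalIdeal R := le_antisymm hPm hm
      have h2 : c = 0 := by
        rw [h1, hdimm] at hdim
        exact_mod_cast hdim.symm
      by_contra hne
      obtain ⟨w, hw⟩ : ∃ w, w ∉ E := by
        by_contra hall
        push Not at hall
        exact hne (eq_top_iff.mpr fun x _ => hall x)
      have h3 := hind (fun _ => w) 1 (by
        intro j hj
        have : j = 0 := by omega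
        subst this
        rw [ch_zero]
        exact fun h => hw (hE h))
      omega
  have hmainseq := exists_seq_gen d hd Good (by
    refine ⟨fun j hj => absurd hj (by omega), fun j hj => absurd hj (by omega), fun l hl => absurd hl (by omega)⟩) (by
    rintro i hi t ⟨ht1, ht2, ht3⟩ S hS
    have hSp : ∀ Q ∈ S, Q.IsPrime := fun Q hQ => (hS Q hQ).1.1.1
    have hanti : ∀ Q ∈ S, ∀ Q' ∈ S, Q ≤ Q' → Q = Q' :=
      fun Q hQ Q' hQ' h => le_antisymm h ((hS Q' hQ').1.2 (hS Q hQ).1.1 h)
    have hSm : ∀ Q ∈ S, ¬ maximalIdeal R ≤ Q := by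
      intro Q hQ hbQ
      obtain ⟨n, hn, hni⟩ := (hS Q hQ).2
      have h1 : maximalIdeal R = Q := (maximalIdeal.isMaximal R).eq_of_le (hSp Q hQ).ne_top hbQ
      rw [← h1, hdimm] at hn
      have h2 : n = 0 := by exact_mod_cast hn.symm
      omega
    have hupd : ∀ z : R, ∀ j < i, Function.update t i z j = t j := fun z j hj =>
      Function.update_of_ne (by omega) _ _
    have hYupd : ∀ z : R, ∀ l, T.card + l < i → Y (Function.update t i z) l = Y t l := by
      intro z l hl
      change π _ = π _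
      rw [hupd z _ hl]
    by_cases hiT : i < T.card
    · obtain ⟨z, hz, hz'⟩ := coset_avoid S hSp hanti (P ^ 2) (g i) (by
        intro Q hQ hbQ
        have hPQ : P ≤ Q := (hSp Q hQ).le_of_pow_le hbQ
        have h1 : Ideal.span (t '' (Finset.range i : Set ℕ)) ≤ P := by
          rw [Ideal.span_le]
          rintro _ ⟨j, hj, rfl⟩
          have hj' : j < i := Finset.mem_range.mp hj
          exact htP t j (by omega) (ht1 j hj' (by omega))
        have h2 : Q = P := le_antisymm ((hS Q hQ).1.2 ⟨hPp, h1⟩ hPQ) hPQ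
        have h3 := Ideal.height_le_card_of_mem_minimalPrimes_span ((Finset.finite_toSet _).image t) (hS Q hQ).1
        rw [h2, ← hht'] at h3
        have h4 : (t '' (Finset.range i : Set ℕ)).ncard ≤ i := by
          refine (Set.ncard_image_le (Finset.finite_toSet _)).trans ?_
          rw [Set.ncard_coe_finset, Finset.card_range]
        have h5 : T.card ≤ (t '' (Finset.range i : Set ℕ)).ncard := by exact_mod_cast h3
        omega)
      have hgz : g i + z - g i ∈ P ^ 2 := by rwa [add_sub_cancel_left]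
      refine ⟨g i + z, hz', ?_, ?_, ?_⟩
      · intro j hj hjT
        by_cases hji : j = i
        · subst hji
          rwa [Function.update_self]
        · rw [hupd _ j (by omega)]
          exact ht1 j (by omega) hjT
      · intro j hj
        by_cases hji : j = i
        · subst hji
          rw [Function.update_self]
          exact hPm (htP (fun _ => g j + z) j hiT hgz)
        · rw [hupd _ j (by omega)]
          exact ht2 j (by omega)
      · intro l hl
        omega
    · have hstep : ∃ z : R, (∀ Q ∈ S, z ∉ Q) ∧ z ∈ maximalIdeal R ∧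
          (ch (Lp L p) (Y t) (i - T.card) = ⊤ ∨ π z ∉ ch (Lp L p) (Y t) (i - T.card)) := by
        by_cases hE : ch (Lp L p) (Y t) (i - T.card) = ⊤
        · obtain ⟨z, hz, hz'⟩ := coset_avoid S hSp hanti (maximalIdeal R) 0 hSm
          exact ⟨0 + z, hz', by rwa [zero_add], Or.inl hE⟩
        · obtain ⟨z₀, hz₀, hz₀E⟩ := hex _ (le_ch _ _ _) hE
          obtain ⟨w, hw, hw'⟩ := coset_avoid_pow S hSp hanti (maximalIdeal R) z₀ p hp.out.ne_zero hSm
          refine ⟨z₀ + w ^ p, hw', Ideal.add_mem _ hz₀ (Ideal.pow_mem_of_mem _ hw p hp.out.pos), Or.inr ?_⟩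
          intro h
          apply hz₀E
          have h1 : π z₀ = π (z₀ + w ^ p) - (π w) ^ p := by
            rw [map_add, map_pow, add_sub_cancel_right]
          rw [h1]
          exact sub_mem h (le_ch _ _ _ (pow_mem_Lp p _))
      obtain ⟨z, hz1, hz2, hz3⟩ := hstep
      refine ⟨z, hz1, ?_, ?_, ?_⟩
      · intro j hj hjT
        rw [hupd _ j (by omega)]
        exact ht1 j (by omega) hjT
      · intro j hj
        by_cases hji : j = i
        · subst hji
          rwa [Function.update_self]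
        · rw [hupd _ j (by omega)]
          exact ht2 j (by omega)
      · intro l hl
        have hch : ch (Lp L p) (Y (Function.update t i z)) l = ch (Lp L p) (Y t) l := by
          apply ch_congr
          intro l' hl'
          exact hYupd z l' (by omega)
        rw [hch]
        by_cases hli : T.card + l = i
        · have h1 : l = i - T.card := by omega
          have h2 : Y (Function.update t i z) l = π z := by
            change π _ = π z
            rw [hli, Function.update_self]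
          rw [h2, h1]
          exact hz3
        · rw [hYupd z l (by omega)]
          exact ht3 l (by omega))
  obtain ⟨t', ⟨ht1', -, -⟩, ht'⟩ := hmainseq T.card hcd
  have hcT : c + T.card ≤ d := ht' P hPp (fun j hj => htP t' j hj (ht1' j hj hj)) c hdim
  obtain ⟨t, ⟨ht1, ht2, ht3⟩, ht⟩ := hmainseq d le_rfl
  refine ⟨fun l => t l, fun l => ht2 l l.2, ?_, ?_, ?_⟩
  · apply Ideal.exists_pow_le_of_le_radical_of_fg _ (IsNoetherian.noetherian _)
    rw [Ideal.radical_eq_sInf]
    apply le_sInf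
    rintro Q ⟨hQ, hQp⟩
    obtain ⟨n, hn⟩ := exists_dim Q
    have h1 := ht Q hQp (fun j hj => hQ (Ideal.subset_span ⟨⟨j, hj⟩, rfl⟩)) n hn
    have h2 : n = 0 := by omega
    subst h2
    intro y hy
    by_contra hyQ
    have h3 := dim_lt Q (maximalIdeal R) (le_maximalIdeal hQp.ne_top) hy hyQ
    rw [hn, hdimm] at h3
    have h4 : (0 : ℕ) + 1 ≤ 0 := by exact_mod_cast h3
    omega
  · intro p' hp'
    set I : Ideal R := Ideal.span {y | (∃ l : Fin d, t l = y) ∧ y ∈ P} with hI
    apply loc_mem P I p'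
    have hmax : maximalIdeal (Localization.AtPrime P) = P.map (algebraMap R (Localization.AtPrime P)) :=
      (Localization.AtPrime.map_eq_maximalIdeal).symm
    have h1 : maximalIdeal (Localization.AtPrime P) ≤
        I.map (algebraMap R (Localization.AtPrime P)) ⊔
          maximalIdeal (Localization.AtPrime P) • maximalIdeal (Localization.AtPrime P) := by
      conv_lhs => rw [← hTspan]
      rw [Submodule.span_le]
      intro τ hτ
      have hτu : τ = u ⟨τ, hτ⟩ * algebraMap R (Localization.AtPrime P) (a ⟨τ, hτ⟩) := hu ⟨τ, hτ⟩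
      rw [SetLike.mem_coe, hτu]
      apply Ideal.mul_mem_left
      set j := T.equivFin ⟨τ, hτ⟩ with hj
      have h2 : a ⟨τ, hτ⟩ = g j := by
        rw [hg1 j j.2, hj]
        simp
      have h3 : g j = t j - (t j - g j) := by ring
      have h4 : t j - g j ∈ P ^ 2 := ht1 j (by have := j.2; omega) j.2
      rw [h2, h3, map_sub]
      apply Ideal.sub_mem
      · apply Ideal.mem_sup_left
        apply Ideal.mem_map_of_mem
        apply Ideal.subset_span
        exact ⟨⟨⟨j, by have := j.2; omega⟩, rfl⟩, htP t j j.2 h4⟩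
      · apply Ideal.mem_sup_right
        rw [smul_eq_mul, hmax, ← Ideal.map_mul, ← pow_two]
        exact Ideal.mem_map_of_mem _ h4
    have h5 : maximalIdeal (Localization.AtPrime P) ≤ I.map (algebraMap R (Localization.AtPrime P)) :=
      Submodule.le_of_le_smul_of_le_jacobson_bot (IsNoetherian.noetherian _)
        (IsLocalRing.maximalIdeal_le_jacobson _) h1
    apply h5
    rw [hmax]
    exact Ideal.mem_map_of_mem _ hp'
  · have htop : ch (Lp L p) (Y t) (d - T.card) = ⊤ := by
      by_contra hne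
      obtain ⟨w, hw⟩ : ∃ w, w ∉ ch (Lp L p) (Y t) (d - T.card) := by
        by_contra hall
        push Not at hall
        exact hne (eq_top_iff.mpr fun x _ => hall x)
      have h1 := hind (Function.update (Y t) (d - T.card) w) (d - T.card + 1) (by
        intro j hj
        have hch : ch (Lp L p) (Function.update (Y t) (d - T.card) w) j = ch (Lp L p) (Y t) j := by
          apply ch_congr
          intro l hl
          exact Function.update_of_ne (by omega) _ _
        rw [hch]
        by_cases hj' : j = d - T.card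
        · rw [hj', Function.update_self]
          exact hw
        · rw [Function.update_of_ne hj']
          rcases ht3 j (by omega) with h | h
          · exfalso
            apply hne
            rw [eq_top_iff, ← h]
            exact ch_mono _ _ (by omega)
          · exact h)
      omega
    rw [eq_top_iff, ← htop, ch, Subfield.closure_le]
    rintro x (hx | ⟨l, hl, rfl⟩)
    · exact (le_sup_left : Lp L p ≤ _) hx
    · apply (le_sup_right : Subfield.closure (Set.range fun l : Fin d => π (t l)) ≤ _)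
      apply Subfield.subset_closure
      have hl' : l < d - T.card := hl
      exact ⟨⟨T.card + l, by omega⟩, rfl⟩

end

end Pool.Agent.TH282.RE
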