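import Pool.Agent.TH282.RE.Isol
import Pool.Agent.TH282.RP.Bound
import Pool.Agent.TH282.RP.ParamP

/-!
# Uniform annihilators of `Ext^1(M, -)` in characteristic p, perfect residue field
-/

set_option autoImplicit false
set_option linter.unusedSectionVars false

namespace Pool.Agent.TH282.RE

open IsLocalRing Pool.Agent.TH282.RG TensorProduct

universe u v

section

variable {A : Type v} {R : Type u} [CommRing A] [CommRing R] [Algebra A R]

/-- the Noether different is not contained in an unramified prime -/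
theorem exists_ann_gen [IsNoetherianRing A] [Module.Finite A R] (P : Ideal R)
    [hPp : P.IsPrime]
    (hP : ∀ p ∈ P, ∃ s, s ∉ P ∧ s * p ∈ Ideal.map (algebraMap A R) (P.comap (algebraMap A R)))
    (hsep : ∀ x : R, ∃ F : Polynomial A, Polynomial.aeval x F ∈ P ∧ Polynomial.aeval x F.derivative ∉ P) :
    ∃ r : R, r ∉ P ∧ ∀ (M : Type u) [AddCommGroup M] [Module R M] [Module A M] [IsScalarTower A R M]
      [Module.Projective A M], ExtAnn R M r := by
  obtain ⟨ε, hε, hε'⟩ := exists_diff (A := A) P (by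
    intro x
    obtain ⟨F, hF, hF'⟩ := hsep x
    obtain ⟨G, hG, hG'⟩ := dl_poly (A := A) x F
    obtain ⟨s, hs, hs'⟩ := dl_prime (A := A) P hP hF
    refine ⟨s * G, ?_, ?_⟩
    · rw [map_mul, hG']
      exact fun h => (hPp.mem_or_mem h).elim hs hF'
    · rw [mul_assoc, ← hG]
      exact hs')
  exact ⟨_, hε, fun M _ _ _ _ _ => extAnn_of_diff ε hε' M⟩

end

section

variable (k : Type v) [Field k] (p : ℕ) [hp : Fact p.Prime] [CharP k p] [PerfectRing k p]
  {R : Type u} [CommRing R] [Algebra k R] [IsLocalRing R]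
  [IsNoetherianRing R] [Module.Finite k (ResidueField R)]

include k p hp in
theorem point_ann_p (hc : IsAdicComplete (maximalIdeal R) R) (d : ℕ)
    (hd : ringKrullDim R = d) (P : Ideal R) [P.IsPrime]
    (hreg : IsRegularLocalRing (Localization.AtPrime P)) :
    ∃ r : R, r ∉ P ∧ ∀ (M : Type u) [AddCommGroup M] [Module R M], Module.Finite R M →
      Dp (R := R) d M → ExtAnn R M r := by
  classical
  let L := FractionRing (R ⧸ P)
  let π : R →+* L := (algebraMap (R ⧸ P) L).comp (Ideal.Quotient.mk P)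
  have hL : CharP L p := by
    rw [CharP.charP_iff_prime_eq_zero hp.out, ← map_natCast π, ← map_natCast (algebraMap k R),
      CharP.cast_eq_zero, map_zero, map_zero]
  have hgen : Subfield.closure (Set.range π) = ⊤ := by
    rw [eq_top_iff]
    intro x _
    obtain ⟨a, b, -, rfl⟩ := IsFractionRing.div_surjective (A := R ⧸ P) x
    obtain ⟨a, rfl⟩ := Ideal.Quotient.mk_surjective a
    obtain ⟨b, rfl⟩ := Ideal.Quotient.mk_surjective b
    exact div_mem (Subfield.subset_closure ⟨a, rfl⟩) (Subfield.subset_closure ⟨b, rfl⟩)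
  have hker : RingHom.ker π = P := by
    ext r
    rw [RingHom.mem_ker]
    change algebraMap (R ⧸ P) L (Ideal.Quotient.mk P r) = 0 ↔ _
    rw [map_eq_zero_iff _ (IsFractionRing.injective (R ⧸ P) L), Ideal.Quotient.eq_zero_iff_mem]
  obtain ⟨c, hdim⟩ := exists_dim P
  obtain ⟨x, hxm, hx, hxP, hxL⟩ := exists_param_p p π hgen P hker hreg d hd c hdim
    (pindep_le k p π hc hgen P hker c hdim)
  obtain ⟨φ, hφ⟩ := exists_eval (k := k) hc x hxm
  let _ : Algebra (MvPowerSeries (Fin d) k) R := φ.toRingHom.toAlgebra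
  have hφ' : ∀ l, algebraMap (MvPowerSeries (Fin d) k) R (MvPowerSeries.X l) = x l := hφ
  have : IsScalarTower k (MvPowerSeries (Fin d) k) R := IsScalarTower.of_algebraMap_eq fun r =>
    (φ.commutes r).symm
  have h1 := finite_over hxm hx hφ' R
  have hsup : Lp L p ⊔ FA (MvPowerSeries (Fin d) k) π = ⊤ := by
    rw [eq_top_iff, ← hxL]
    refine sup_le_sup le_rfl ?_
    rw [Subfield.closure_le]
    rintro _ ⟨l, rfl⟩
    beta_reduce
    rw [← hφ' l]
    exact mem_FA π _
  obtain ⟨r, hrP, hr⟩ := exists_ann_gen (A := MvPowerSeries (Fin d) k) P (by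
    intro p hp
    obtain ⟨s, hs, hsp⟩ := hxP p hp
    refine ⟨s, hs, ?_⟩
    refine (Ideal.span_le.mpr ?_) hsp
    rintro y ⟨⟨l, rfl⟩, hy⟩
    rw [SetLike.mem_coe, ← hφ']
    apply Ideal.mem_map_of_mem
    rw [Ideal.mem_comap, hφ']
    exact hy) (by
    intro y
    obtain ⟨F, hF, hF'⟩ := exists_sep_p (A := MvPowerSeries (Fin d) k) π p hgen hsup y
    refine ⟨F, ?_, ?_⟩
    · rw [← hker]
      exact hF
    · intro h
      apply hF'
      rw [← hker] at h
      exact h)
  refine ⟨r, hrP, ?_⟩
  intro M _ _ _ hD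
  let _ : Module (MvPowerSeries (Fin d) k) M :=
    Module.compHom M (algebraMap (MvPowerSeries (Fin d) k) R)
  have : IsScalarTower (MvPowerSeries (Fin d) k) R M := IsScalarTower.of_algebraMap_smul fun r m => rfl
  let _ : Module k M := Module.compHom M (algebraMap k R)
  have : IsScalarTower k R M := IsScalarTower.of_algebraMap_smul fun r m => rfl
  have : IsScalarTower k (MvPowerSeries (Fin d) k) M := by
    refine IsScalarTower.of_algebraMap_smul fun r m => ?_
    rw [← algebraMap_smul R (algebraMap k (MvPowerSeries (Fin d) k) r) m,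
      ← IsScalarTower.algebraMap_apply k (MvPowerSeries (Fin d) k) R, algebraMap_smul]
  have h2 := finite_over hxm hx hφ' M
  have hR : Reg x M := reg_of_mcm hxm hx M (by rwa [Fintype.card_fin])
  obtain ⟨h3, -⟩ := free_of_reg (k := k) M (reg_X_of_reg hφ' hR)
  exact hr M

include k p hp in
/-- over an isolated singularity, a power of the maximal ideal annihilates `Ext^1(M, -)` for all
maximal Cohen-Macaulay modules `M` -/
theorem isol_ann_p (hc : IsAdicComplete (maximalIdeal R) R) (d : ℕ)
    (hd : ringKrullDim R = d)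
    (hreg : ∀ (P : Ideal R) [P.IsPrime], P ≠ maximalIdeal R →
      IsRegularLocalRing (Localization.AtPrime P)) :
    ∃ e : ℕ, ∀ (M : Type u) [AddCommGroup M] [Module R M], Module.Finite R M →
      Dp (R := R) d M → ∀ r ∈ maximalIdeal R ^ e, ExtAnn R M r := by
  let c : Ideal R :=
    { carrier := {r | ∀ (M : Type u) [AddCommGroup M] [Module R M], Module.Finite R M →
        Dp (R := R) d M → ExtAnn R M r}
      add_mem' := fun {a b} ha hb M _ _ hM hD => (ha M hM hD).add (hb M hM hD)
      zero_mem' := fun M _ _ _ _ => ExtAnn.zero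
      smul_mem' := fun a b hb M _ _ hM hD => (hb M hM hD).mul a }
  have h1 : ∃ e, maximalIdeal R ^ e ≤ c := by
    apply Ideal.exists_pow_le_of_le_radical_of_fg _ (IsNoetherian.noetherian _)
    rw [Ideal.radical_eq_sInf]
    apply le_sInf
    rintro Q ⟨hQ, hQp⟩
    by_contra hQm
    have hne : Q ≠ maximalIdeal R := fun h => hQm h.ge
    obtain ⟨r, hrQ, hr⟩ := point_ann_p k p hc d hd Q (hreg Q hne)
    exact hrQ (hQ hr)
  obtain ⟨e, he⟩ := h1
  exact ⟨e, fun M _ _ hM hD r hr => he hr M hM hD⟩

end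

end Pool.Agent.TH282.RE
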