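import Pool.Agent.TH282.RE.Final3
import Pool.Agent.TH282.RP.IsolP
import Pool.Agent.TH282.RP.Coeff

/-!
# Finitely many maximal Cohen-Macaulay ideal classes: characteristic p, perfect residue field
-/

set_option autoImplicit false
set_option linter.unusedSectionVars false

namespace Pool.Agent.TH282.RE

open IsLocalRing

universe u

section

variable {R : Type u} [CommRing R] [IsLocalRing R] [IsNoetherianRing R]

/-- a complete local ring of characteristic p with perfect residue field has a coefficient field -/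
theorem exists_coeff_algebra_p (p : ℕ) [hp : Fact p.Prime] [CharP R p] [PerfectField (ResidueField R)]
    (hc : IsAdicComplete (maximalIdeal R) R) :
    ∃ (k : Type u) (_ : Field k) (_ : Algebra k R) (_ : CharP k p) (_ : PerfectRing k p),
      Module.Finite k (ResidueField R) := by
  have hk : CharP (ResidueField R) p := by
    rw [CharP.charP_iff_prime_eq_zero hp.out, ← map_natCast (residue R), CharP.cast_eq_zero, map_zero]
  have hperf : PerfectRing (ResidueField R) p := PerfectField.toPerfectRing p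
  obtain ⟨φ, hφ⟩ := exists_coeff_perfect p hc
  exact ⟨ResidueField R, inferInstance, φ.toAlgebra, hk, hperf,
    @finite_residue_of_surj (ResidueField R) _ R _ _ φ.toAlgebra fun a => ⟨a, hφ a⟩⟩

theorem finite_mcm_ideals_p (p : ℕ) [hp : Fact p.Prime] [CharP R p] [PerfectField (ResidueField R)]
    (hc : IsAdicComplete (maximalIdeal R) R)
    (hCM : ∃ rs : List R, (∀ r ∈ rs, r ∈ maximalIdeal R) ∧ RingTheory.Sequence.IsRegular R rs ∧
      (rs.length : WithBot ℕ∞) = ringKrullDim R)
    (hR2 : ∀ (P : Ideal R) [P.IsPrime], P.height ≤ 2 → IsRegularLocalRing (Localization.AtPrime P)) :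
    ∃ (n : ℕ) (J : Fin n → Ideal R), ∀ I : Ideal R, I ≠ ⊥ →
      (∃ rs : List R, (∀ r ∈ rs, r ∈ maximalIdeal R) ∧ RingTheory.Sequence.IsRegular I rs ∧
        (rs.length : WithBot ℕ∞) = ringKrullDim R) →
      ∃ j : Fin n, Nonempty (I ≃ₗ[R] J j) := by
  obtain ⟨k, _, _, _, _, hk⟩ := exists_coeff_algebra_p p hc
  obtain ⟨s, -, -, hd⟩ := exists_sop R
  have hDp : ∀ (M : Type u) [AddCommGroup M] [Module R M],
      (∃ rs : List R, (∀ r ∈ rs, r ∈ maximalIdeal R) ∧ RingTheory.Sequence.IsRegular M rs ∧
        (rs.length : WithBot ℕ∞) = ringKrullDim R) → Dp (R := R) s.card M := by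
    intro M _ _ hM
    obtain ⟨rs, hrm, hw, hlen⟩ := hM
    refine ⟨rs, ?_, hrm, hw⟩
    rw [hd] at hlen
    exact_mod_cast hlen
  have hD := hDp R hCM
  have hreg : ∀ (P : Ideal R) [P.IsPrime], P.height < 2 → IsRegularLocalRing (Localization.AtPrime P) :=
    fun P _ h => hR2 P h.le
  have hdom : IsDomain R := isDomain_of s.card hd hD hreg
  let 𝔠 : Ideal R :=
    { carrier := {r | ∀ (M : Type u) [AddCommGroup M] [Module R M], Module.Finite R M →
        Dp (R := R) s.card M → ExtAnn R M r}
      add_mem' := fun {a b} ha hb M _ _ hM hD => (ha M hM hD).add (hb M hM hD)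
      zero_mem' := fun M _ _ _ _ => ExtAnn.zero
      smul_mem' := fun a b hb M _ _ hM hD => (hb M hM hD).mul a }
  obtain ⟨n, J, h⟩ := cut_main k hc s.card hd hD hreg 𝔠 (fun r hr => hr) (by
    intro Q hQ hht hle
    obtain ⟨r, hrQ, hr⟩ := point_ann_p k p hc s.card hd Q (hR2 Q (by
      have h3 : (3 : ℕ∞) = 2 + 1 := by norm_num
      rw [h3] at hht
      exact Order.le_of_lt_add_one hht))
    exact hrQ (hle hr))
  exact ⟨n, J, fun I hI hIM => h I ⟨hI, hDp I hIM⟩⟩

end

end Pool.Agent.TH282.RE
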