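import Pool.Agent.TH282.RE.Lim
import Pool.Agent.TH282.RE.Depth

/-!
# Regularity of parameters from lengths
-/

set_option autoImplicit false
set_option linter.unusedSectionVars false

namespace Pool.Agent.TH282.RE

open IsLocalRing

section

variable {R : Type*} [CommRing R] [IsLocalRing R] [IsNoetherianRing R] {ι : Type*} [DecidableEq ι]
  [Fintype ι] (x : ι → R)

theorem reg_of_length (hxm : ∀ l, x l ∈ maximalIdeal R)
    (hx : ∃ t, maximalIdeal R ^ t ≤ Ideal.span (Set.range x)) (M : Type*)
    [AddCommGroup M] [Module R M] [Module.Finite R M]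
    (h : ∀ c : ι → ℕ, (∀ l, 1 ≤ c l) → Module.length R (M ⧸ WW x c Finset.univ M) =
      ((∏ l, c l : ℕ) : ℕ∞) * Module.length R (M ⧸ WW x (fun _ => 1) Finset.univ M)) : Reg x M := by
  intro i J c hi hc m v hv
  rcases Nat.eq_zero_or_pos m with hm | hm
  · subst hm
    rwa [pow_zero, one_smul] at hv
  obtain ⟨ρ, hρ⟩ := ENat.ne_top_iff_exists.mp (length_WW hx M (fun _ => 1))
  have key : ∀ N : ℕ, 1 ≤ N → v ∈ WW x (fun l => if l ∈ J then c l else N) Finset.univ M := by
    intro N hN
    set c' : ι → ℕ := fun l => if l ∈ J then c l else N with hc'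
    have hc'1 : ∀ l, 1 ≤ c' l := by
      intro l
      simp only [hc']
      split_ifs
      · exact hc l
      · exact hN
    have hupd : Function.update c' i N = c' := by
      funext l
      by_cases hl : l = i
      · subst hl
        simp [hc', hi]
      · rw [Function.update_of_ne hl]
    have hprod : ∀ a : ℕ, ∏ l, Function.update c' i a l = a * ∏ l ∈ Finset.univ.erase i, c' l := by
      intro a
      rw [← Finset.mul_prod_erase Finset.univ _ (Finset.mem_univ i), Function.update_self]
      congr 1
      refine Finset.prod_congr rfl fun l hl => ?_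
      rw [Function.update_of_ne (Finset.ne_of_mem_erase hl)]
    have hlen : ∀ a : ℕ, 1 ≤ a → Module.length R (M ⧸ WW x (Function.update c' i a) Finset.univ M) =
        ((a * (∏ l ∈ Finset.univ.erase i, c' l) * ρ : ℕ) : ℕ∞) := by
      intro a ha
      rw [h _ (by
        intro l
        by_cases hl : l = i
        · subst hl
          rwa [Function.update_self]
        · rw [Function.update_of_ne hl]
          exact hc'1 l), hprod, ← hρ]
      push_cast
      rfl
    have hmem := mem_update x M c' i
    let f : (M ⧸ WW x (Function.update c' i N) Finset.univ M) →ₗ[R]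
        (M ⧸ WW x (Function.update c' i (N + m)) Finset.univ M) :=
      Submodule.mapQ _ _ (x i ^ m • LinearMap.id) (by
        intro w hw
        rw [hmem] at hw
        obtain ⟨u, hu⟩ := hw
        rw [Submodule.mem_comap, hmem]
        refine ⟨u, ?_⟩
        have h1 : (x i ^ m • LinearMap.id : M →ₗ[R] M) w - x i ^ (N + m) • u =
            x i ^ m • (w - x i ^ N • u) := by
          rw [LinearMap.smul_apply, LinearMap.id_apply, smul_sub, smul_smul, ← pow_add, add_comm N m]
        rw [h1]
        exact Submodule.smul_mem _ _ hu)
    have hle : WW x (Function.update c' i (N + m)) Finset.univ M ≤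
        WW x (Function.update c' i m) Finset.univ M := by
      apply WW_mono (Finset.Subset.refl _)
      intro l _
      by_cases hl : l = i
      · subst hl
        rw [Function.update_self, Function.update_self]
        omega
      · rw [Function.update_of_ne hl, Function.update_of_ne hl]
    let g : (M ⧸ WW x (Function.update c' i (N + m)) Finset.univ M) →ₗ[R]
        (M ⧸ WW x (Function.update c' i m) Finset.univ M) := Submodule.factor hle
    have hg : Function.Surjective g := Submodule.factor_surjective hle
    have hex : LinearMap.ker g = LinearMap.range f := by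
      apply le_antisymm
      · intro q hq
        obtain ⟨u, rfl⟩ := Submodule.mkQ_surjective _ q
        have h1 : u ∈ WW x (Function.update c' i m) Finset.univ M := by
          rw [LinearMap.mem_ker] at hq
          exact (Submodule.Quotient.mk_eq_zero _).mp hq
        rw [hmem] at h1
        obtain ⟨u', hu'⟩ := h1
        refine ⟨Submodule.Quotient.mk u', ?_⟩
        change Submodule.Quotient.mk (x i ^ m • u') = Submodule.Quotient.mk u
        rw [Submodule.Quotient.eq, hmem]
        refine ⟨0, ?_⟩
        rw [smul_zero, sub_zero, ← neg_sub]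
        exact Submodule.neg_mem _ hu'
      · rintro _ ⟨q, rfl⟩
        obtain ⟨u, rfl⟩ := Submodule.mkQ_surjective _ q
        rw [LinearMap.mem_ker]
        change Submodule.Quotient.mk (x i ^ m • u) = 0
        rw [Submodule.Quotient.mk_eq_zero, hmem]
        exact ⟨u, by rw [sub_self]; exact Submodule.zero_mem _⟩
    have e1 := Module.length_eq_add_of_exact (LinearMap.ker f).subtype f.rangeRestrict
      (Submodule.subtype_injective _) f.surjective_rangeRestrict (by
        intro q
        rw [← LinearMap.mem_ker, LinearMap.ker_rangeRestrict]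
        constructor
        · intro hq
          exact ⟨⟨q, hq⟩, rfl⟩
        · rintro ⟨⟨q, hq⟩, rfl⟩
          exact hq)
    have e2 := Module.length_eq_add_of_exact (LinearMap.range f).subtype g
      (Submodule.subtype_injective _) hg (by
        intro q
        rw [← LinearMap.mem_ker, hex]
        constructor
        · intro hq
          exact ⟨⟨q, hq⟩, rfl⟩
        · rintro ⟨⟨q, hq⟩, rfl⟩
          exact hq)
    rw [hlen N hN] at e1
    rw [hlen (N + m) (by omega), hlen m hm] at e2
    have hk : Module.length R (LinearMap.ker f) = 0 := by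
      have hr : Module.length R (LinearMap.range f) ≠ ⊤ := by
        intro htop
        rw [htop, add_top] at e1
        exact ENat.natCast_ne_top _ e1
      have hk' : Module.length R (LinearMap.ker f) ≠ ⊤ := by
        intro htop
        rw [htop, top_add] at e1
        exact ENat.natCast_ne_top _ e1
      obtain ⟨a, ha⟩ := ENat.ne_top_iff_exists.mp hr
      obtain ⟨b, hb⟩ := ENat.ne_top_iff_exists.mp hk'
      rw [← ha, ← hb] at e1
      rw [← ha] at e2
      have e1' : N * (∏ l ∈ Finset.univ.erase i, c' l) * ρ = b + a := by exact_mod_cast e1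
      have e2' : (N + m) * (∏ l ∈ Finset.univ.erase i, c' l) * ρ =
          a + m * (∏ l ∈ Finset.univ.erase i, c' l) * ρ := by exact_mod_cast e2
      rw [← hb]
      have : b = 0 := by
        rw [add_mul, add_mul] at e2'
        omega
      rw [this]
      rfl
    have hinj : ∀ q, f q = 0 → q = 0 := by
      intro q hq
      have h1 : Subsingleton (LinearMap.ker f) := Module.length_eq_zero_iff.mp hk
      have h2 : (⟨q, hq⟩ : LinearMap.ker f) = 0 := Subsingleton.elim _ _
      exact congrArg Subtype.val h2
    have h1 : f (Submodule.Quotient.mk v) = 0 := by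
      change Submodule.Quotient.mk (x i ^ m • v) = 0
      rw [Submodule.Quotient.mk_eq_zero]
      refine WW_mono (Finset.subset_univ J) ?_ hv
      intro l hl
      have hli : l ≠ i := fun h => hi (h ▸ hl)
      rw [Function.update_of_ne hli]
      simp [hc', hl]
    have h2 := (Submodule.Quotient.mk_eq_zero _).mp (hinj _ h1)
    rwa [hupd] at h2
  have hbot : (WW x c J M).mkQ v ∈ (⨅ n : ℕ, maximalIdeal R ^ n • ⊤ : Submodule R (M ⧸ WW x c J M)) := by
    rw [Submodule.mem_iInf]
    intro n
    obtain ⟨w, hw⟩ := key (n + 1) (by omega)
    rw [hw, map_sum]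
    refine Submodule.sum_mem _ fun l _ => ?_
    beta_reduce
    by_cases hl : l ∈ J
    · have h1 : (WW x c J M).mkQ (x l ^ (if l ∈ J then c l else n + 1) • w l) = 0 := by
        rw [if_pos hl, Submodule.mkQ_apply, Submodule.Quotient.mk_eq_zero]
        exact WW_single hl _
      rw [h1]
      exact Submodule.zero_mem _
    · rw [if_neg hl, map_smul]
      exact Submodule.smul_mem_smul (Ideal.pow_le_pow_right (Nat.le_succ n)
        (Ideal.pow_mem_pow (hxm l) _)) Submodule.mem_top
  rw [Ideal.iInf_pow_smul_eq_bot_of_isLocalRing _ (maximalIdeal.isMaximal R).ne_top] at hbot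
  exact (Submodule.Quotient.mk_eq_zero _).mp hbot

end

section

universe u

variable {R : Type u} [CommRing R] [IsLocalRing R] [IsNoetherianRing R]

theorem Dp_of_Reg {d : ℕ} (x : Fin d → R) (hxm : ∀ l, x l ∈ maximalIdeal R) (M : Type u)
    [AddCommGroup M] [Module R M] [Module.Finite R M] [Nontrivial M] (h : Reg x M) :
    Dp (R := R) d M := by
  refine ⟨List.ofFn x, List.length_ofFn, ?_, ?_, ?_⟩
  · intro r hr
    rw [List.mem_ofFn] at hr
    obtain ⟨l, rfl⟩ := hr
    exact hxm l
  · constructor
    intro i hi
    have hi' : i < d := by rwa [List.length_ofFn] at hi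
    have hW : (Ideal.ofList ((List.ofFn x).take i) • ⊤ : Submodule R M) =
        WW x (fun _ => 1) (Finset.univ.filter fun l : Fin d => (l : ℕ) < i) M := by
      apply le_antisymm
      · rw [Submodule.smul_le]
        intro r hr v _
        rw [Ideal.ofList] at hr
        induction hr using Submodule.span_induction with
        | mem r hr =>
          obtain ⟨j, hj, hjr⟩ := List.getElem_of_mem hr
          rw [List.getElem_take, List.getElem_ofFn] at hjr
          rw [List.length_take, List.length_ofFn] at hj
          rw [← hjr]
          have h1 := WW_single (x := x) (c := fun _ => 1) (J := Finset.univ.filter fun l : Fin d => (l : ℕ) < i)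
            (l := ⟨j, by omega⟩) (by simp; omega) v
          rwa [pow_one] at h1
        | zero =>
          rw [zero_smul]
          exact Submodule.zero_mem _
        | add a b _ _ ha hb =>
          rw [add_smul]
          exact Submodule.add_mem _ ha hb
        | smul a b _ hb =>
          rw [smul_eq_mul, mul_smul]
          exact Submodule.smul_mem _ _ hb
      · rintro _ ⟨w, rfl⟩
        refine Submodule.sum_mem _ fun l hl => ?_
        rw [pow_one]
        refine Submodule.smul_mem_smul (Ideal.subset_span ?_) Submodule.mem_top
        rw [Finset.mem_filter] at hl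
        have h2 : (l : ℕ) < ((List.ofFn x).take i).length := by
          rw [List.length_take, List.length_ofFn]
          have := l.2
          omega
        have h3 : ((List.ofFn x).take i)[(l : ℕ)] = x l := by
          rw [List.getElem_take, List.getElem_ofFn]
        rw [Set.mem_ofPred_eq, ← h3]
        exact List.getElem_mem h2
    rw [hW, List.getElem_ofFn]
    intro a b hab
    obtain ⟨a, rfl⟩ := Submodule.mkQ_surjective _ a
    obtain ⟨b, rfl⟩ := Submodule.mkQ_surjective _ b
    have h1 : x ⟨i, hi'⟩ ^ 1 • (a - b) ∈
        WW x (fun _ => 1) (Finset.univ.filter fun l : Fin d => (l : ℕ) < i) M := by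
      have h2 : x ⟨i, hi'⟩ • (Submodule.mkQ _ a) = x ⟨i, hi'⟩ • (Submodule.mkQ _ b) := hab
      rw [← map_smul, ← map_smul, ← sub_eq_zero, ← map_sub, Submodule.mkQ_apply,
        Submodule.Quotient.mk_eq_zero, ← smul_sub] at h2
      rwa [pow_one]
    have h3 := h ⟨i, hi'⟩ _ (fun _ => 1) (by simp) (fun _ => le_rfl) 1 _ h1
    rw [← sub_eq_zero, ← map_sub, Submodule.mkQ_apply, Submodule.Quotient.mk_eq_zero]
    exact h3
  · intro htop
    have h0 : Ideal.ofList (List.ofFn x) ≤ maximalIdeal R := by
      rw [Ideal.ofList, Ideal.span_le]
      intro r hr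
      have hr' : r ∈ List.ofFn x := hr
      rw [List.mem_ofFn] at hr'
      obtain ⟨l, rfl⟩ := hr'
      exact hxm l
    have h1 : (⊤ : Submodule R M) ≤ maximalIdeal R • ⊤ :=
      htop.le.trans (Submodule.smul_mono_left h0)
    exact absurd (top_le_iff.mp h1) (smul_top_lt M).ne

end

end Pool.Agent.TH282.RE
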