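import Pool.Agent.TH282.RP.LimA
import Pool.Agent.TH282.RE.Sop

/-!
# Comparison of lengths modulo parameters
-/

set_option autoImplicit false
set_option linter.unusedSectionVars false

namespace Pool.Agent.TH282.RE

open IsLocalRing

section

variable {R : Type*} [CommRing R] [IsLocalRing R] [IsNoetherianRing R] {ι : Type*} [DecidableEq ι]
  [Fintype ι] {x : ι → R}

/-- right exactness of lengths -/
theorem length_right (c : ι → ℕ) {A B : Type*} [AddCommGroup A] [Module R A] [AddCommGroup B] [Module R B]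
    (φ : A →ₗ[R] B) :
    Module.length R (B ⧸ WW x c Finset.univ B) ≤ Module.length R (A ⧸ WW x c Finset.univ A) +
      Module.length R ((B ⧸ LinearMap.range φ) ⧸ WW x c Finset.univ (B ⧸ LinearMap.range φ)) := by
  let f : (A ⧸ WW x c Finset.univ A) →ₗ[R] (B ⧸ WW x c Finset.univ B) :=
    Submodule.mapQ _ _ φ (fun v hv => WW_map φ hv)
  let g : (B ⧸ WW x c Finset.univ B) →ₗ[R]
      ((B ⧸ LinearMap.range φ) ⧸ WW x c Finset.univ (B ⧸ LinearMap.range φ)) :=
    Submodule.mapQ _ _ (LinearMap.range φ).mkQ (fun v hv => WW_map _ hv)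
  have hg : Function.Surjective g := by
    intro q
    obtain ⟨b, rfl⟩ := Submodule.mkQ_surjective _ q
    obtain ⟨b, rfl⟩ := Submodule.mkQ_surjective _ b
    exact ⟨Submodule.Quotient.mk b, rfl⟩
  have hex : LinearMap.ker g ≤ LinearMap.range f := by
    intro q hq
    obtain ⟨b, rfl⟩ := Submodule.mkQ_surjective _ q
    have h1 : (LinearMap.range φ).mkQ b ∈ WW x c Finset.univ (B ⧸ LinearMap.range φ) := by
      rw [LinearMap.mem_ker] at hq
      exact (Submodule.Quotient.mk_eq_zero _).mp hq
    obtain ⟨w, hw⟩ := h1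
    choose w' hw' using fun l => (LinearMap.range φ).mkQ_surjective (w l)
    have h2 : (LinearMap.range φ).mkQ (b - ∑ l, x l ^ c l • w' l) = 0 := by
      rw [map_sub, hw, map_sum, sub_eq_zero]
      exact Finset.sum_congr rfl fun l _ => by rw [map_smul, hw']
    rw [Submodule.mkQ_apply, Submodule.Quotient.mk_eq_zero] at h2
    obtain ⟨a, ha⟩ := h2
    refine ⟨Submodule.Quotient.mk a, ?_⟩
    change Submodule.Quotient.mk (φ a) = Submodule.Quotient.mk b
    rw [Submodule.Quotient.eq, ha]
    refine ⟨fun l => - w' l, ?_⟩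
    simp only [smul_neg, Finset.sum_neg_distrib]
    abel
  have e2 := Module.length_eq_add_of_exact (LinearMap.ker g).subtype g
    (Submodule.subtype_injective _) hg (LinearMap.exact_subtype_ker_map g)
  rw [e2]
  refine add_le_add ?_ le_rfl
  exact (Module.length_le_of_injective (Submodule.inclusion hex) (Submodule.inclusion_injective hex)).trans
    (Module.length_le_of_surjective f.rangeRestrict f.surjective_rangeRestrict)

/-- the length of a torsion module modulo the parameters grows slowly -/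
theorem length_torsion [IsDomain R] (d : ℕ) (hd : ringKrullDim R = d)
    (hx : ∃ t, maximalIdeal R ^ t ≤ Ideal.span (Set.range x)) {a : R} (ha : a ≠ 0)
    (T : Type*) [AddCommGroup T] [Module R T] [Module.Finite R T] (haT : ∀ t : T, a • t = 0) :
    Subsingleton T ∨ ∃ d' C : ℕ, d' + 1 ≤ d ∧ ∀ N : ℕ, 1 ≤ N →
      Module.length R (T ⧸ WW x (fun _ => N) Finset.univ T) ≤ ((N ^ d' * C : ℕ) : ℕ∞) := by
  classical
  by_cases hau : IsUnit a
  · left
    refine ⟨fun s t => ?_⟩
    obtain ⟨u, hu⟩ := hau
    have h1 : ∀ t : T, t = 0 := by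
      intro t
      have := haT t
      rw [← hu] at this
      have h2 : (u⁻¹ : Rˣ) • ((u : R) • t) = t := by
        rw [Units.smul_def, smul_smul, Units.inv_mul, one_smul]
      rw [← h2, this, smul_zero]
    rw [h1 s, h1 t]
  right
  have ham : a ∈ maximalIdeal R := hau
  let S := R ⧸ Ideal.span {a}
  have hnt : Nontrivial S := by
    apply Ideal.Quotient.nontrivial_iff.mpr
    rw [Ne, Ideal.span_singleton_eq_top]
    exact hau
  have hloc : IsLocalRing S := IsLocalRing.of_surjective' (Ideal.Quotient.mk (Ideal.span {a})) Ideal.Quotient.mk_surjective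
  have hlh : IsLocalHom (Ideal.Quotient.mk (Ideal.span {a})) := IsLocalHom.of_surjective _ Ideal.Quotient.mk_surjective
  obtain ⟨s, hs1, ⟨t, ht⟩, hs3⟩ := exists_sop S
  have hdim : s.card + 1 ≤ d := by
    have h1 := ringKrullDim_quotient_succ_le_of_nonZeroDivisor (mem_nonZeroDivisors_of_ne_zero ha)
    rw [hd] at h1
    change ringKrullDim S + 1 ≤ _ at h1
    rw [hs3] at h1
    exact_mod_cast h1
  have hlift : ∀ l : s, ∃ y : R, Ideal.Quotient.mk (Ideal.span {a}) y = l := fun l =>
    Ideal.Quotient.mk_surjective _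
  choose y hy using hlift
  have hym : ∀ l, y l ∈ maximalIdeal R := by
    intro l
    have h1 := hs1 _ l.2
    rw [← hy l] at h1
    intro hu
    exact h1 (hu.map _)
  have hmt : maximalIdeal R ^ t ≤ Ideal.span (Set.range y) ⊔ Ideal.span {a} := by
    intro r hr
    have h1 : Ideal.Quotient.mk (Ideal.span {a}) r ∈ maximalIdeal S ^ t := by
      have h2 : (maximalIdeal R).map (Ideal.Quotient.mk (Ideal.span {a})) ≤ maximalIdeal S := by
        rw [Ideal.map_le_iff_le_comap]
        intro z hz hu
        exact hz (hlh.map_nonunit z hu)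
      apply Ideal.pow_right_mono h2 t
      rw [← Ideal.map_pow]
      exact Ideal.mem_map_of_mem _ hr
    have h2 := ht h1
    have h3 : (s : Set S) = Ideal.Quotient.mk (Ideal.span {a}) '' Set.range y := by
      ext z
      constructor
      · intro hz
        exact ⟨y ⟨z, hz⟩, ⟨⟨z, hz⟩, rfl⟩, hy _⟩
      · rintro ⟨_, ⟨l, rfl⟩, rfl⟩
        rw [hy]
        exact l.2
    rw [h3, ← Ideal.map_span] at h2
    rw [Ideal.mem_map_iff_of_surjective _ Ideal.Quotient.mk_surjective] at h2
    obtain ⟨z, hz, hzr⟩ := h2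
    have h4 : r = z + (r - z) := by ring
    rw [h4]
    refine Submodule.add_mem_sup hz ?_
    rw [← Ideal.Quotient.eq_zero_iff_mem, map_sub, hzr, sub_self]
  have hfin : Module.length R (T ⧸ WW y (fun _ => 1) Finset.univ T) ≠ ⊤ := by
    apply length_killed t
    intro r hr q
    obtain ⟨q, rfl⟩ := Submodule.mkQ_surjective _ q
    rw [← map_smul, Submodule.mkQ_apply, Submodule.Quotient.mk_eq_zero]
    obtain ⟨u, hu, v, hv, rfl⟩ := Submodule.mem_sup.mp (hmt hr)
    obtain ⟨w, rfl⟩ := Ideal.mem_span_singleton'.mp hv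
    rw [add_smul, mul_smul, haT, smul_zero, add_zero, WW_eq_smul]
    simp only [pow_one]
    exact Submodule.smul_mem_smul hu Submodule.mem_top
  obtain ⟨C₀, hC₀⟩ := ENat.ne_top_iff_exists.mp hfin
  obtain ⟨c, hc1, hc⟩ := max_pow_le x hx
  refine ⟨s.card, c ^ s.card * C₀, hdim, ?_⟩
  intro N hN
  have hle : WW y (fun _ => c * N) Finset.univ T ≤ WW x (fun _ => N) Finset.univ T := by
    rintro _ ⟨w, rfl⟩
    refine Submodule.sum_mem _ fun l _ => ?_
    rw [WW_eq_smul]
    exact Submodule.smul_mem_smul (hc N hN (Ideal.pow_mem_pow (hym l) _)) Submodule.mem_top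
  refine (Module.length_le_of_surjective (Submodule.factor hle) (Submodule.factor_surjective hle)).trans ?_
  refine (length_prod_le y T (fun _ => c * N)).trans ?_
  rw [← hC₀, Finset.prod_const, Finset.card_univ, Fintype.card_coe]
  rw [← Nat.cast_mul]
  apply Nat.cast_le.mpr
  rw [mul_pow]
  ring_nf
  exact le_rfl

/-- two modules on which the parameters are regular, related by a map with torsion cokernel -/
theorem length_le_of_map [IsDomain R] (d : ℕ) (hd : ringKrullDim R = d) (hι : Fintype.card ι = d)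
    (hx : ∃ t, maximalIdeal R ^ t ≤ Ideal.span (Set.range x)) {A B : Type*} [AddCommGroup A] [Module R A]
    [Module.Finite R A] [AddCommGroup B] [Module R B] [Module.Finite R B] (hA : Reg x A) (hB : Reg x B)
    (φ : A →ₗ[R] B) {a : R} (ha : a ≠ 0) (haφ : ∀ b : B, ∃ v, φ v = a • b) :
    Module.length R (B ⧸ WW x (fun _ => 1) Finset.univ B) ≤
      Module.length R (A ⧸ WW x (fun _ => 1) Finset.univ A) := by
  have hT : ∀ t : B ⧸ LinearMap.range φ, a • t = 0 := by
    intro t
    obtain ⟨b, rfl⟩ := Submodule.mkQ_surjective _ t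
    rw [← map_smul, Submodule.mkQ_apply, Submodule.Quotient.mk_eq_zero]
    obtain ⟨v, hv⟩ := haφ b
    exact ⟨v, hv⟩
  obtain ⟨α, hα⟩ := ENat.ne_top_iff_exists.mp (length_WW hx A (fun _ => 1))
  obtain ⟨β, hβ⟩ := ENat.ne_top_iff_exists.mp (length_WW hx B (fun _ => 1))
  have hprod : ∀ N : ℕ, ((∏ _l : ι, N : ℕ)) = N ^ d := by
    intro N
    rw [Finset.prod_const, Finset.card_univ, hι]
  rcases length_torsion d hd hx ha (B ⧸ LinearMap.range φ) hT with h | ⟨d', C, hd', hC⟩
  · have h1 := length_right (x := x) (fun _ => 1) φ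
    have h2 : Module.length R ((B ⧸ LinearMap.range φ) ⧸ WW x (fun _ => 1) Finset.univ (B ⧸ LinearMap.range φ)) = 0 := by
      rw [Module.length_eq_zero_iff]
      exact Submodule.mkQ_surjective _ |>.subsingleton
    rwa [h2, add_zero] at h1
  · rw [← hα, ← hβ]
    by_contra hcon
    rw [not_le] at hcon
    have hcon' : α < β := by exact_mod_cast hcon
    have key : ∀ N : ℕ, 1 ≤ N → N ^ d * β ≤ N ^ d * α + N ^ d' * C := by
      intro N hN
      have h1 := length_right (x := x) (fun _ => N) φ
      rw [length_prod x A hA (fun _ => N) (fun _ => hN), length_prod x B hB (fun _ => N) (fun _ => hN),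
        ← hα, ← hβ, hprod] at h1
      have h2 := h1.trans (add_le_add le_rfl (hC N hN))
      exact_mod_cast h2
    have h3 := key (C + 1) (by omega)
    have h4 : (C + 1) ^ d * α + (C + 1) ^ d ≤ (C + 1) ^ d * β := by
      rw [← Nat.mul_succ]
      exact Nat.mul_le_mul_left _ hcon'
    have h5 : (C + 1) ^ d ≤ (C + 1) ^ d' * C := by omega
    have h6 : (C + 1) ^ (d' + 1) ≤ (C + 1) ^ d := Nat.pow_le_pow_right (by omega) hd'
    have h7 : (C + 1) ^ d' * C < (C + 1) ^ (d' + 1) := by
      rw [pow_succ]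
      exact Nat.mul_lt_mul_of_pos_left (Nat.lt_succ_self C) (Nat.pow_pos (by omega))
    omega

end

end Pool.Agent.TH282.RE
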