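import Pool.Agent.TH282.RP.LimB
import Pool.Agent.TH282.RE.Dom

/-!
# The limit of a sequence of maximal Cohen-Macaulay ideals is a maximal Cohen-Macaulay ideal
-/

set_option autoImplicit false
set_option linter.unusedSectionVars false

namespace Pool.Agent.TH282.RE

open IsLocalRing

universe u

section

variable {R : Type*} [CommRing R] {ι : Type*} [DecidableEq ι] [Fintype ι] {x : ι → R}
  {A B : Type*} [AddCommGroup A] [Module R A] [AddCommGroup B] [Module R B]

theorem Reg.prod (hA : Reg x A) (hB : Reg x B) : Reg x (A × B) := by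
  intro i J c hi hc m v hv
  have h1 := hA i J c hi hc m v.1 (WW_map (LinearMap.fst R A B) hv)
  have h2 := hB i J c hi hc m v.2 (WW_map (LinearMap.snd R A B) hv)
  have h3 : v = LinearMap.inl R A B v.1 + LinearMap.inr R A B v.2 := by simp
  rw [h3]
  exact Submodule.add_mem _ (WW_map _ h1) (WW_map _ h2)

theorem length_prod_ge (c : ι → ℕ) :
    Module.length R (A ⧸ WW x c Finset.univ A) + Module.length R (B ⧸ WW x c Finset.univ B) ≤
      Module.length R ((A × B) ⧸ WW x c Finset.univ (A × B)) := by
  rw [← Module.length_prod]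
  let f : ((A × B) ⧸ WW x c Finset.univ (A × B)) →ₗ[R]
      ((A ⧸ WW x c Finset.univ A) × (B ⧸ WW x c Finset.univ B)) :=
    (WW x c Finset.univ (A × B)).liftQ (((WW x c Finset.univ A).mkQ ∘ₗ LinearMap.fst R A B).prod
      ((WW x c Finset.univ B).mkQ ∘ₗ LinearMap.snd R A B)) (by
        intro v hv
        rw [LinearMap.mem_ker]
        apply Prod.ext
        · exact (Submodule.Quotient.mk_eq_zero _).mpr (WW_map (LinearMap.fst R A B) hv)
        · exact (Submodule.Quotient.mk_eq_zero _).mpr (WW_map (LinearMap.snd R A B) hv))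
  apply Module.length_le_of_surjective f
  rintro ⟨a, b⟩
  obtain ⟨a, rfl⟩ := Submodule.mkQ_surjective _ a
  obtain ⟨b, rfl⟩ := Submodule.mkQ_surjective _ b
  exact ⟨Submodule.Quotient.mk (a, b), rfl⟩

theorem length_cover (f : A →ₗ[R] B) (hf : Function.Surjective f) (c : ι → ℕ) :
    Module.length R (B ⧸ WW x c Finset.univ B) =
      Module.length R (A ⧸ (LinearMap.ker f ⊔ WW x c Finset.univ A)) := by
  let q : A →ₗ[R] (B ⧸ WW x c Finset.univ B) := (WW x c Finset.univ B).mkQ ∘ₗ f
  have hqs : Function.Surjective q := (Submodule.mkQ_surjective _).comp hf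
  have hq : LinearMap.ker q = LinearMap.ker f ⊔ WW x c Finset.univ A := by
    apply le_antisymm
    · intro v hv
      have h1 : f v ∈ WW x c Finset.univ B := (Submodule.Quotient.mk_eq_zero _).mp hv
      obtain ⟨w, hw⟩ := h1
      choose w' hw' using fun l => hf (w l)
      have h2 : v = (v - ∑ l, x l ^ c l • w' l) + ∑ l, x l ^ c l • w' l := by abel
      rw [h2]
      refine Submodule.add_mem_sup ?_ ⟨w', rfl⟩
      rw [LinearMap.mem_ker, map_sub, hw, map_sum, sub_eq_zero]
      exact Finset.sum_congr rfl fun l _ => by rw [map_smul, hw']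
    · refine sup_le ?_ ?_
      · intro v hv
        rw [LinearMap.mem_ker, LinearMap.comp_apply, LinearMap.mem_ker.mp hv, map_zero]
      · intro v hv
        rw [LinearMap.mem_ker]
        exact (Submodule.Quotient.mk_eq_zero _).mpr (WW_map f hv)
  rw [← hq]
  exact (LinearEquiv.length_eq (q.quotKerEquivOfSurjective hqs)).symm

end

section

variable {R : Type*} [CommRing R] [IsDomain R]

theorem rank_embed (M : Type*) [AddCommGroup M] [Module R M] [Module.Finite R M]
    (htf : ∀ (r : R) (m : M), r ≠ 0 → r • m = 0 → m = 0) :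
    ∃ (r : ℕ) (b : R) (ψ : M →ₗ[R] (Fin r → R)), b ≠ 0 ∧ Function.Injective ψ ∧
      ∀ v, ∃ m, ψ m = b • v := by
  classical
  obtain ⟨f, hf⟩ := exists_linearIndependent_of_le_finrank (le_refl (Module.finrank R M))
  have h1 : ∀ m : M, ∃ b : R, b ≠ 0 ∧ b • m ∈ Submodule.span R (Set.range f) := by
    intro m
    by_contra hcon
    push Not at hcon
    have h2 : LinearIndependent R (Fin.cons m f : Fin (Module.finrank R M + 1) → M) := by
      rw [Fintype.linearIndependent_iff]
      intro g hg
      rw [Fin.sum_univ_succ] at hg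
      simp only [Fin.cons_zero, Fin.cons_succ] at hg
      have h0 : g 0 = 0 := by
        by_contra h0
        apply hcon (g 0) h0
        have h3 : g 0 • m = - ∑ i : Fin (Module.finrank R M), g i.succ • f i := eq_neg_of_add_eq_zero_left hg
        rw [h3]
        exact Submodule.neg_mem _ (Submodule.sum_mem _ fun i _ =>
          Submodule.smul_mem _ _ (Submodule.subset_span ⟨i, rfl⟩))
      rw [h0, zero_smul, zero_add] at hg
      intro i
      refine Fin.cases h0 (fun i => ?_) i
      exact Fintype.linearIndependent_iff.mp hf (fun i => g i.succ) hg i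
    have h3 := h2.fintype_card_le_finrank
    rw [Fintype.card_fin] at h3
    omega
  have h2 : ∀ G : Finset M, ∃ b : R, b ≠ 0 ∧ ∀ m ∈ G, b • m ∈ Submodule.span R (Set.range f) := by
    intro G
    induction G using Finset.induction_on with
    | empty => exact ⟨1, one_ne_zero, by simp⟩
    | insert y G _ ih =>
      obtain ⟨s, hs, hsG⟩ := ih
      obtain ⟨t, ht, hty⟩ := h1 y
      refine ⟨s * t, mul_ne_zero hs ht, ?_⟩
      intro z hz
      rcases Finset.mem_insert.mp hz with rfl | hz
      · rw [mul_smul]
        exact Submodule.smul_mem _ _ hty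
      · rw [mul_comm, mul_smul]
        exact Submodule.smul_mem _ _ (hsG z hz)
  obtain ⟨G, hG⟩ := (inferInstance : Module.Finite R M).fg_top
  obtain ⟨b, hb, hbG⟩ := h2 G
  have h3 : ∀ m : M, b • m ∈ Submodule.span R (Set.range f) := by
    intro m
    have ht : m ∈ Submodule.span R (G : Set M) := by
      rw [hG]
      trivial
    induction ht using Submodule.span_induction with
    | mem t ht => exact hbG t ht
    | zero =>
      rw [smul_zero]
      exact Submodule.zero_mem _
    | add a b _ _ ha hb =>
      rw [smul_add]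
      exact Submodule.add_mem _ ha hb
    | smul c a _ ha =>
      rw [smul_comm]
      exact Submodule.smul_mem _ _ ha
  let ψ₀ : M →ₗ[R] Submodule.span R (Set.range f) :=
    (LinearMap.lsmul R M b).codRestrict _ h3
  let ψ : M →ₗ[R] (Fin (Module.finrank R M) → R) :=
    (Finsupp.linearEquivFunOnFinite R R (Fin (Module.finrank R M))).toLinearMap ∘ₗ hf.repr ∘ₗ ψ₀
  refine ⟨Module.finrank R M, b, ψ, hb, ?_, ?_⟩
  · rw [injective_iff_map_eq_zero]
    intro m hm
    have h4 : hf.repr (ψ₀ m) = 0 :=
      (Finsupp.linearEquivFunOnFinite R R (Fin (Module.finrank R M))).injective (by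
        rw [map_zero]
        exact hm)
    have h5 := hf.linearCombination_repr (ψ₀ m)
    rw [h4, map_zero] at h5
    exact htf b m hb h5.symm
  · intro v
    refine ⟨∑ i, v i • f i, ?_⟩
    have h4 : hf.repr (ψ₀ (∑ i, v i • f i)) =
        (Finsupp.linearEquivFunOnFinite R R (Fin (Module.finrank R M))).symm (b • v) := by
      apply hf.repr_eq
      rw [Finsupp.linearCombination_eq_fintype_linearCombination_apply R]
      change Fintype.linearCombination R f (b • v) = b • ∑ i, v i • f i
      rw [Fintype.linearCombination_apply, Finset.smul_sum]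
      exact Finset.sum_congr rfl fun i _ => by rw [Pi.smul_apply, smul_eq_mul, mul_smul]
    change (Finsupp.linearEquivFunOnFinite R R _) (hf.repr (ψ₀ (∑ i, v i • f i))) = _
    rw [h4, LinearEquiv.apply_symm_apply]

end

section

variable {R : Type u} [CommRing R] [IsLocalRing R] [IsNoetherianRing R]

theorem torsionFree_of_Dp [IsDomain R] (d : ℕ) (hd : ringKrullDim R = d) (M : Type u) [AddCommGroup M]
    [Module R M] [Module.Finite R M] (hM : Dp (R := R) d M) (r : R) (m : M) (hr : r ≠ 0)
    (h : r • m = 0) : m = 0 := by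
  by_contra hm
  obtain ⟨P, hP, hPm⟩ := exists_le_isAssociatedPrime_of_isNoetherianRing R m hm
  have hrP : r ∈ P := by
    apply hPm
    simpa [LinearMap.mem_ker] using h
  have hPp : P.IsPrime := hP.isPrime
  have h1 := Dp.le_dim d M hM P hP
  have h2 := dim_lt (⊥ : Ideal R) P bot_le hrP (by rwa [Ideal.mem_bot])
  have h3 : ringKrullDim (R ⧸ (⊥ : Ideal R)) = ringKrullDim R :=
    ringKrullDim_eq_of_ringEquiv (RingEquiv.quotientBot R)
  rw [h3, hd] at h2
  obtain ⟨n, hn⟩ := exists_dim P
  rw [hn] at h1 h2
  have h4 : d ≤ n := by exact_mod_cast h1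
  have h5 : n + 1 ≤ d := by exact_mod_cast h2
  omega

end

end Pool.Agent.TH282.RE
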