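import Pool.Agent.TH282.RP.LimC

/-!
# The limit of a sequence of maximal Cohen-Macaulay ideals
-/

set_option autoImplicit false
set_option linter.unusedSectionVars false

namespace Pool.Agent.TH282.RE

open IsLocalRing

universe u

section

variable {R : Type u} [CommRing R] [IsLocalRing R] [IsNoetherianRing R]
  {ι : Type*} [DecidableEq ι] [Fintype ι] {x : ι → R}

theorem exists_EL_le (hx : ∃ t, maximalIdeal R ^ t ≤ Ideal.span (Set.range x)) (c : ι → ℕ) :
    ∃ L : ℕ, ∀ (p : ℕ) (M : Type u) [AddCommGroup M] [Module R M] (f : (Fin p → R) →ₗ[R] M),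
      ∀ v ∈ EL R p L, f v ∈ WW x c Finset.univ M := by
  obtain ⟨t, ht⟩ := hx
  obtain ⟨T, hT⟩ := pow_le_span x c
  refine ⟨t * T, fun p M _ _ f v hv => ?_⟩
  rw [WW_eq_smul]
  refine Submodule.smul_mono_left ?_ (EL_le_smul f hv)
  rw [pow_mul]
  exact (Ideal.pow_right_mono ht T).trans hT

/-- the lengths modulo powers of parameters pass to the limit -/
theorem length_limit (hx : ∃ t, maximalIdeal R ^ t ≤ Ideal.span (Set.range x)) (c : ι → ℕ) {p : ℕ}
    (𝒰 : Ultrafilter ℕ) (I : ℕ → Ideal R) (π : ∀ n, (Fin p → R) →ₗ[R] I n)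
    (hπ : ∀ n, Function.Surjective (π n)) (M : Type u) [AddCommGroup M] [Module R M]
    (π' : (Fin p → R) →ₗ[R] M) (hπ' : Function.Surjective π')
    (hlim : ∀ L, ∀ᶠ n in (𝒰 : Filter ℕ), LinearMap.ker (π n) ⊔ EL R p L = LinearMap.ker π' ⊔ EL R p L) :
    ∀ᶠ n in (𝒰 : Filter ℕ), Module.length R (I n ⧸ WW x c Finset.univ (I n)) =
      Module.length R (M ⧸ WW x c Finset.univ M) := by
  obtain ⟨L, hL⟩ := exists_EL_le hx c
  have h1 : EL R p L ≤ WW x c Finset.univ (Fin p → R) := fun v hv => hL p _ LinearMap.id v hv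
  filter_upwards [hlim L] with n hn
  rw [length_cover (π n) (hπ n), length_cover π' hπ']
  have h2 : ∀ K : Submodule R (Fin p → R), K ⊔ WW x c Finset.univ (Fin p → R) =
      (K ⊔ EL R p L) ⊔ WW x c Finset.univ (Fin p → R) := by
    intro K
    rw [sup_assoc, sup_eq_right.mpr h1]
  rw [h2, h2 (LinearMap.ker π'), hn]

theorem WW1_le (hxm : ∀ l, x l ∈ maximalIdeal R) (M : Type*) [AddCommGroup M] [Module R M] :
    WW x (fun _ => 1) Finset.univ M ≤ maximalIdeal R • (⊤ : Submodule R M) := by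
  rintro _ ⟨w, rfl⟩
  refine Submodule.sum_mem _ fun l _ => ?_
  rw [pow_one]
  exact Submodule.smul_mem_smul (hxm l) Submodule.mem_top

theorem length_WW1_ne_zero (hxm : ∀ l, x l ∈ maximalIdeal R) (M : Type u) [AddCommGroup M] [Module R M]
    [Module.Finite R M] [Nontrivial M] : Module.length R (M ⧸ WW x (fun _ => 1) Finset.univ M) ≠ 0 := by
  rw [Ne, Module.length_eq_zero_iff, Submodule.Quotient.subsingleton_iff]
  intro h
  have h1 := WW1_le hxm M
  rw [h] at h1
  exact (smul_top_lt M).ne (top_le_iff.mp h1)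

theorem length_ideal_le [IsDomain R] (d : ℕ) (hd : ringKrullDim R = d) (hι : Fintype.card ι = d)
    (hxm : ∀ l, x l ∈ maximalIdeal R) (hx : ∃ t, maximalIdeal R ^ t ≤ Ideal.span (Set.range x))
    (hD : Dp (R := R) d R) (I : Ideal R) (hI : I ≠ ⊥) (hID : Dp (R := R) d I) :
    Module.length R (I ⧸ WW x (fun _ => 1) Finset.univ I) ≤
      Module.length R (R ⧸ WW x (fun _ => 1) Finset.univ R) := by
  obtain ⟨w, hwI, hw⟩ := Submodule.exists_mem_ne_zero_of_ne_bot hI
  refine length_le_of_map d hd hι hx (reg_of_mcm hxm hx R (by rwa [hι]))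
    (reg_of_mcm hxm hx I (by rwa [hι])) (LinearMap.toSpanSingleton R I ⟨w, hwI⟩) hw ?_
  intro b
  refine ⟨b, ?_⟩
  rw [LinearMap.toSpanSingleton_apply]
  apply Subtype.ext
  change (b : R) * w = w * (b : R)
  rw [mul_comm]

/-- **the limit** -/
theorem limit_ideal [IsDomain R] [Finite (ResidueField R)] (hc : IsAdicComplete (maximalIdeal R) R)
    (d : ℕ) (hd : ringKrullDim R = d) (hD : Dp (R := R) d R) (𝒰 : Ultrafilter ℕ) (I : ℕ → Ideal R)
    (hI : ∀ n, I n ≠ ⊥ ∧ Dp (R := R) d (I n)) :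
    ∃ (p : ℕ) (π : ∀ n, (Fin p → R) →ₗ[R] I n) (I' : Ideal R) (π' : (Fin p → R) →ₗ[R] I'),
      (∀ n, Function.Surjective (π n)) ∧ Function.Surjective π' ∧ I' ≠ ⊥ ∧ Dp (R := R) d I' ∧
      ∀ L, ∀ᶠ n in (𝒰 : Filter ℕ), LinearMap.ker (π n) ⊔ EL R p L = LinearMap.ker π' ⊔ EL R p L := by
  classical
  obtain ⟨x, hxm, hx, -⟩ := exists_sop_in d hd ⊤ 0 (fun Q _ h => absurd h (by simp))
  have hcard : Fintype.card (Fin d) = d := Fintype.card_fin d
  obtain ⟨ρ, hρ⟩ := ENat.ne_top_iff_exists.mp (length_WW hx R (fun _ => 1))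
  have hle := fun n => length_ideal_le d hd hcard hxm hx hD (I n) (hI n).1 (hI n).2
  have hgen : ∀ n, ∃ f : (Fin ρ → R) →ₗ[R] I n, Function.Surjective f := by
    intro n
    apply exists_gens
    rw [hρ]
    refine le_trans ?_ (hle n)
    exact Module.length_le_of_surjective (Submodule.factor (WW1_le hxm (I n))) (Submodule.factor_surjective _)
  choose π hπ using hgen
  obtain ⟨K', hK'⟩ := exists_limit hc ρ 𝒰 (fun n => LinearMap.ker (π n))
  let M := (Fin ρ → R) ⧸ K'
  let π₀ : (Fin ρ → R) →ₗ[R] M := K'.mkQ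
  have hπ₀ : Function.Surjective π₀ := K'.mkQ_surjective
  have hker : LinearMap.ker π₀ = K' := Submodule.ker_mkQ K'
  have hlim : ∀ L, ∀ᶠ n in (𝒰 : Filter ℕ), LinearMap.ker (π n) ⊔ EL R ρ L = LinearMap.ker π₀ ⊔ EL R ρ L := by
    rw [hker]
    exact hK'
  have hlen := fun c => length_limit hx c 𝒰 I π hπ M π₀ hπ₀ hlim
  have hIreg : ∀ n, Reg x (I n) := fun n => reg_of_mcm hxm hx (I n) (by rw [hcard]; exact (hI n).2)
  have hMreg : Reg x M := by
    apply reg_of_length x hxm hx M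
    intro c hc1
    obtain ⟨n, h1, h2⟩ := ((hlen c).and (hlen (fun _ => 1))).exists
    rw [← h1, ← h2]
    exact length_prod x (I n) (hIreg n) c hc1
  obtain ⟨n₀, hn₀⟩ := (hlen (fun _ => 1)).exists
  have hnt : Nontrivial M := by
    rw [← not_subsingleton_iff_nontrivial]
    intro hsub
    have h1 : Nontrivial (I n₀) := (hI n₀).2.nontrivial
    apply length_WW1_ne_zero hxm (I n₀)
    rw [hn₀, Module.length_eq_zero_iff]
    exact (Submodule.mkQ_surjective _).subsingleton
  have hMD : Dp (R := R) d M := Dp_of_Reg x hxm M hMreg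
  have htf := torsionFree_of_Dp d hd M hMD
  obtain ⟨r, b, ψ, hb, hψ, hψb⟩ := rank_embed M (fun r m => htf r m)
  have hMle : Module.length R (M ⧸ WW x (fun _ => 1) Finset.univ M) ≤ ρ := by
    rw [← hn₀, hρ]
    exact hle n₀
  have hρ0 : ρ ≠ 0 := by
    intro h0
    have h1 := length_WW1_ne_zero hxm R
    rw [← hρ, h0] at h1
    exact h1 rfl
  have hRreg : Reg x R := reg_of_mcm hxm hx R (by rwa [hcard])
  have hr1 : r = 1 := by
    rcases Nat.lt_or_ge r 1 with h | h
    · exfalso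
      have h0 : r = 0 := by omega
      subst h0
      obtain ⟨a, b, hab⟩ := hnt.exists_pair_ne
      exact hab (hψ (Subsingleton.elim _ _))
    rcases Nat.lt_or_ge 1 r with h' | h'
    · exfalso
      let φ : M →ₗ[R] R × R := (LinearMap.proj (⟨0, by omega⟩ : Fin r) ∘ₗ ψ).prod
        (LinearMap.proj (⟨1, by omega⟩ : Fin r) ∘ₗ ψ)
      have h1 := length_le_of_map d hd hcard hx hMreg (hRreg.prod hRreg) φ hb (by
        rintro ⟨u, v⟩
        obtain ⟨m, hm⟩ := hψb (fun i => if i = ⟨0, by omega⟩ then u else v)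
        refine ⟨m, ?_⟩
        apply Prod.ext
        · change ψ m ⟨0, _⟩ = b • u
          rw [hm]
          simp
        · change ψ m ⟨1, _⟩ = b • v
          rw [hm]
          simp)
      have h2 := (length_prod_ge (R := R) (x := x) (A := R) (B := R) (fun _ => 1)).trans (h1.trans hMle)
      rw [← hρ] at h2
      have h3 : ρ + ρ ≤ ρ := by exact_mod_cast h2
      omega
    · omega
  subst hr1
  let ev : (Fin 1 → R) ≃ₗ[R] R := LinearEquiv.funUnique (Fin 1) R R
  let θ : M →ₗ[R] R := ev.toLinearMap ∘ₗ ψ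
  have hθ : Function.Injective θ := ev.injective.comp hψ
  let e : M ≃ₗ[R] LinearMap.range θ := LinearEquiv.ofInjective θ hθ
  have hI'D : Dp (R := R) d (LinearMap.range θ) := hMD.of_equiv e
  refine ⟨ρ, π, LinearMap.range θ, e.toLinearMap ∘ₗ π₀, hπ, e.surjective.comp hπ₀, ?_, hI'D, ?_⟩
  · intro hbot
    have h1 : Nontrivial (LinearMap.range θ) := hI'D.nontrivial
    rw [hbot] at h1
    exact not_subsingleton _ (inferInstance : Subsingleton (⊥ : Submodule R R))
  · have h1 : LinearMap.ker (e.toLinearMap ∘ₗ π₀) = LinearMap.ker π₀ := by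
      ext v
      rw [LinearMap.mem_ker, LinearMap.mem_ker]
      exact LinearEquiv.map_eq_zero_iff e
    rw [h1]
    exact hlim

end

end Pool.Agent.TH282.RE
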