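import Pool.Agent.TH282.RE.Conv

/-!
# Modules on which the parameters are regular are free at regular points
-/

set_option autoImplicit false
set_option linter.unusedSectionVars false

namespace Pool.Agent.TH282.RE

universe u

section

variable {R : Type u} [CommRing R]

/-- a finitely generated module with vanishing fibre at `P` is killed by an element outside `P` -/
theorem exists_kill (P : Ideal R) [hP : P.IsPrime] (T : Type*) [AddCommGroup T] [Module R T]
    [Module.Finite R T] (h : ∀ t : T, ∃ s, s ∉ P ∧ s • t ∈ (P • ⊤ : Submodule R T)) :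
    ∃ s, s ∉ P ∧ ∀ t : T, s • t = 0 := by
  classical
  have h1P : (1 : R) ∉ P := fun h => hP.ne_top ((Ideal.eq_top_iff_one P).mpr h)
  obtain ⟨G, hG⟩ := (inferInstance : Module.Finite R T).fg_top
  have h2 : ∀ G' : Finset T, ∃ s, s ∉ P ∧ ∀ t ∈ G', s • t ∈ (P • ⊤ : Submodule R T) := by
    intro G'
    induction G' using Finset.induction_on with
    | empty => exact ⟨1, h1P, by simp⟩
    | insert y G' _ ih =>
      obtain ⟨s, hs, hsT⟩ := ih
      obtain ⟨t, ht, hty⟩ := h y
      refine ⟨s * t, fun h => (hP.mem_or_mem h).elim hs ht, ?_⟩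
      intro z hz
      rcases Finset.mem_insert.mp hz with rfl | hz
      · rw [mul_smul]
        exact Submodule.smul_mem _ _ hty
      · rw [mul_comm, mul_smul]
        exact Submodule.smul_mem _ _ (hsT z hz)
  obtain ⟨s, hs, hsG⟩ := h2 G
  have h3 : ∀ t : T, s • t ∈ (P • ⊤ : Submodule R T) := by
    intro t
    have ht : t ∈ Submodule.span R (G : Set T) := by
      rw [hG]
      trivial
    induction ht using Submodule.span_induction with
    | mem t ht => exact hsG t ht
    | zero =>
      rw [smul_zero]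
      exact Submodule.zero_mem _
    | add a b _ _ ha hb =>
      rw [smul_add]
      exact Submodule.add_mem _ ha hb
    | smul c a _ ha =>
      rw [smul_comm]
      exact Submodule.smul_mem _ _ ha
  let f : Module.End R T := LinearMap.lsmul R T s
  have hf : LinearMap.range f ≤ P • ⊤ := by
    rintro _ ⟨y, rfl⟩
    exact h3 y
  obtain ⟨p, hp, -, hpc, hpa⟩ :=
    LinearMap.exists_monic_and_natDegree_eq_and_coeff_mem_pow_and_aeval_eq_zero R f P hf
  have h6 : ∀ (q : Polynomial R) (y : T), Polynomial.aeval f q y = (q.eval s) • y := by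
    intro q y
    induction q using Polynomial.induction_on' with
    | add a b ha hb => rw [map_add, LinearMap.add_apply, ha, hb, Polynomial.eval_add, add_smul]
    | monomial n a =>
      rw [Polynomial.aeval_monomial, Polynomial.eval_monomial]
      have h7 : ∀ n : ℕ, (f ^ n) y = s ^ n • y := by
        intro n
        induction n with
        | zero => simp
        | succ n ih =>
          rw [pow_succ', Module.End.mul_apply, ih, pow_succ', mul_smul]
          rfl
      rw [Module.End.mul_apply, h7, mul_smul]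
      rfl
  refine ⟨p.eval s, ?_, ?_⟩
  · have h8 : p.eval s - s ^ p.natDegree ∈ P := by
      rw [Polynomial.eval_eq_sum_range, Finset.sum_range_succ, hp.coeff_natDegree, one_mul,
        add_sub_cancel_right]
      apply Ideal.sum_mem
      intro i hi
      apply Ideal.mul_mem_right
      have h9 := hpc i
      have h10 : p.natDegree - i ≠ 0 := by
        have := Finset.mem_range.mp hi
        omega
      exact Ideal.pow_le_self h10 h9
    intro h9
    have h10 : s ^ p.natDegree ∈ P := by
      have : s ^ p.natDegree = p.eval s - (p.eval s - s ^ p.natDegree) := by ring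
      rw [this]
      exact Ideal.sub_mem _ h9 h8
    exact hs (hP.mem_of_pow_mem _ h10)
  · intro t
    have h11 := h6 p t
    rw [hpa] at h11
    exact h11.symm

/-- a family generating the fibre of `M` at `P` with the smallest number of elements -/
theorem exists_min_gens (P : Ideal R) [hP : P.IsPrime] (M : Type*) [AddCommGroup M] [Module R M]
    [Module.Finite R M] : ∃ (r : ℕ) (m : Fin r → M),
      (∀ z : M, ∃ s, s ∉ P ∧ s • z ∈ Submodule.span R (Set.range m) ⊔ P • ⊤) ∧
      ∀ v : Fin r → R, (∑ i, v i • m i) ∈ (P • ⊤ : Submodule R M) → ∀ i, v i ∈ P := by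
  classical
  have h1P : (1 : R) ∉ P := fun h => hP.ne_top ((Ideal.eq_top_iff_one P).mpr h)
  let Q : ℕ → Prop := fun r => ∃ m : Fin r → M,
    ∀ z : M, ∃ s, s ∉ P ∧ s • z ∈ Submodule.span R (Set.range m) ⊔ P • ⊤
  have hQ : ∃ r, Q r := by
    obtain ⟨n, s, hs⟩ := Module.Finite.exists_fin (R := R) (M := M)
    refine ⟨n, s, fun z => ⟨1, h1P, ?_⟩⟩
    rw [hs]
    exact Submodule.mem_sup_left trivial
  obtain ⟨m, hm⟩ := Nat.find_spec hQ
  refine ⟨Nat.find hQ, m, hm, ?_⟩
  intro v hv j
  by_contra hj
  have hpos : 0 < Nat.find hQ := lt_of_le_of_lt (Nat.zero_le _) j.2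
  obtain ⟨r', hr'⟩ := Nat.exists_eq_succ_of_ne_zero hpos.ne'
  apply Nat.find_min hQ (m := r') (by omega)
  let e : Fin (r' + 1) ≃ Fin (Nat.find hQ) := finCongr hr'.symm
  let j' : Fin (r' + 1) := e.symm j
  refine ⟨fun i => m (e (j'.succAbove i)), ?_⟩
  have hspan : v j • m j ∈ Submodule.span R (Set.range fun i => m (e (j'.succAbove i))) ⊔ P • ⊤ := by
    have h1 : ∑ i, v i • m i = v j • m j + ∑ i : Fin r', v (e (j'.succAbove i)) • m (e (j'.succAbove i)) := by
      rw [← Equiv.sum_comp e, Fin.sum_univ_succAbove _ j']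
      simp [j']
    have h2 : v j • m j = (∑ i, v i • m i) - ∑ i : Fin r', v (e (j'.succAbove i)) • m (e (j'.succAbove i)) := by
      rw [h1, add_sub_cancel_right]
    rw [h2]
    refine Submodule.sub_mem _ (Submodule.mem_sup_right hv) (Submodule.mem_sup_left ?_)
    exact Submodule.sum_mem _ fun i _ => Submodule.smul_mem _ _ (Submodule.subset_span ⟨i, rfl⟩)
  intro z
  obtain ⟨s, hs, hsz⟩ := hm z
  refine ⟨v j * s, fun h => (hP.mem_or_mem h).elim hj hs, ?_⟩
  rw [mul_smul]
  obtain ⟨a, ha, b, hb, hab⟩ := Submodule.mem_sup.mp hsz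
  rw [← hab, smul_add]
  refine Submodule.add_mem _ ?_ (Submodule.mem_sup_right (Submodule.smul_mem _ _ hb))
  have hle : ∀ a ∈ Submodule.span R (Set.range m),
      v j • a ∈ Submodule.span R (Set.range fun i => m (e (j'.succAbove i))) ⊔ P • ⊤ := by
    intro a ha
    induction ha using Submodule.span_induction with
    | mem a ha =>
      obtain ⟨i, rfl⟩ := ha
      by_cases hij : i = j
      · rw [hij]
        exact hspan
      · have hij' : e.symm i ≠ j' := fun h => hij (e.symm.injective h)
        obtain ⟨i', hi'⟩ := Fin.exists_succAbove_eq hij'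
        apply Submodule.mem_sup_left
        apply Submodule.smul_mem
        apply Submodule.subset_span
        refine ⟨i', ?_⟩
        beta_reduce
        rw [hi', Equiv.apply_symm_apply]
    | zero =>
      rw [smul_zero]
      exact Submodule.zero_mem _
    | add a b _ _ ha hb =>
      rw [smul_add]
      exact Submodule.add_mem _ ha hb
    | smul c a _ ha =>
      rw [smul_comm]
      exact Submodule.smul_mem _ _ ha
  exact hle a ha

variable {ι : Type*} [DecidableEq ι] [Fintype ι] {x : ι → R}

theorem relations_at (P : Ideal R) [hP : P.IsPrime] {M : Type*} [AddCommGroup M] [Module R M]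
    (hM : Reg x M) {F : Type*} [AddCommGroup F] [Module R F] (φ : F →ₗ[R] M) {s₁ : R} (hs₁ : s₁ ∉ P)
    (hφ : ∀ z : M, ∃ v, φ v = s₁ • z) (J : Finset ι) :
    ∀ w : ι → F, ∑ l ∈ J, x l • φ (w l) = 0 →
      ∃ s, s ∉ P ∧ ∃ k : ι → F, (∀ l, φ (k l) = 0) ∧ s • ∑ l ∈ J, x l • w l = ∑ l ∈ J, x l • k l := by
  have h1P : (1 : R) ∉ P := fun h => hP.ne_top ((Ideal.eq_top_iff_one P).mpr h)
  induction J using Finset.induction_on with
  | empty =>
    intro w _
    exact ⟨1, h1P, fun _ => 0, fun _ => map_zero _, by simp⟩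
  | insert j J hj ih =>
    intro w hw
    rw [Finset.sum_insert hj] at hw
    have h1 : x j ^ 1 • φ (w j) ∈ WW x (fun _ => 1) J M := by
      refine ⟨fun l => - φ (w l), ?_⟩
      simp only [pow_one, smul_neg, Finset.sum_neg_distrib]
      exact eq_neg_of_add_eq_zero_left hw
    obtain ⟨u, hu⟩ := hM j J (fun _ => 1) hj (fun _ => le_rfl) 1 _ h1
    simp only [pow_one] at hu
    choose w' hw' using fun l => hφ (u l)
    have hk : φ (s₁ • w j - ∑ l ∈ J, x l • w' l) = 0 := by
      rw [map_sub, map_smul, hu, map_sum, Finset.smul_sum, sub_eq_zero]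
      refine Finset.sum_congr rfl fun l _ => ?_
      rw [map_smul, hw', smul_comm]
    have hsum : s₁ • (x j • w j + ∑ l ∈ J, x l • w l) = x j • (s₁ • w j - ∑ l ∈ J, x l • w' l) +
        ∑ l ∈ J, x l • (s₁ • w l + x j • w' l) := by
      simp only [smul_add, smul_sub, Finset.sum_add_distrib, Finset.smul_sum]
      have e1 : ∀ l, x l • x j • w' l = x j • x l • w' l := fun l => smul_comm _ _ _
      have e2 : ∀ l, x l • s₁ • w l = s₁ • x l • w l := fun l => smul_comm _ _ _
      simp only [e1, e2]
      abel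
    obtain ⟨s, hs, k, hk0, hks⟩ := ih (fun l => s₁ • w l + x j • w' l) (by
      have e3 : ∑ l ∈ J, x l • φ (s₁ • w l + x j • w' l) = φ (∑ l ∈ J, x l • (s₁ • w l + x j • w' l)) := by
        rw [map_sum]
        exact Finset.sum_congr rfl fun l _ => (map_smul _ _ _).symm
      rw [e3]
      have e4 : ∑ l ∈ J, x l • (s₁ • w l + x j • w' l) =
          s₁ • (x j • w j + ∑ l ∈ J, x l • w l) - x j • (s₁ • w j - ∑ l ∈ J, x l • w' l) := by
        rw [hsum]
        abel
      rw [e4, map_sub, map_smul, map_smul, hk, smul_zero, sub_zero, map_add, map_smul, map_sum]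
      have e5 : ∑ l ∈ J, φ (x l • w l) = ∑ l ∈ J, x l • φ (w l) :=
        Finset.sum_congr rfl fun l _ => map_smul _ _ _
      rw [e5, hw, smul_zero])
    refine ⟨s * s₁, fun h => (hP.mem_or_mem h).elim hs hs₁,
      fun l => if l = j then s • (s₁ • w j - ∑ l ∈ J, x l • w' l) else k l, ?_, ?_⟩
    · intro l
      beta_reduce
      split_ifs
      · rw [map_smul, hk, smul_zero]
      · exact hk0 l
    · rw [Finset.sum_insert hj, Finset.sum_insert hj, mul_smul, hsum, smul_add, hks]
      beta_reduce
      rw [if_pos rfl]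
      congr 1
      · rw [smul_comm]
      · refine Finset.sum_congr rfl fun l hl => ?_
        rw [if_neg]
        intro h
        exact hj (h ▸ hl)

/-- **free at regular points**: an element outside `P` annihilates `Ext^1(M, -)` -/
theorem extAnn_at [IsNoetherianRing R] (P : Ideal R) [hP : P.IsPrime]
    (hx : ∀ p ∈ P, ∃ s, s ∉ P ∧ s * p ∈ Ideal.span {y | (∃ l, x l = y) ∧ y ∈ P})
    (M : Type u) [AddCommGroup M] [Module R M] [Module.Finite R M] (hM : Reg x M) :
    ∃ r, r ∉ P ∧ ExtAnn R M r := by
  classical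
  have h1P : (1 : R) ∉ P := fun h => hP.ne_top ((Ideal.eq_top_iff_one P).mpr h)
  obtain ⟨r, m, hm1, hm2⟩ := exists_min_gens P M
  let φ : (Fin r → R) →ₗ[R] M := Fintype.linearCombination R m
  have hφ : ∀ v, φ v = ∑ i, v i • m i := fun v => rfl
  have hrange : LinearMap.range φ = Submodule.span R (Set.range m) := Fintype.range_linearCombination R m
  obtain ⟨s₁, hs₁, hs₁T⟩ := exists_kill P (M ⧸ LinearMap.range φ) (by
    intro t
    obtain ⟨z, rfl⟩ := Submodule.mkQ_surjective _ t
    obtain ⟨s, hs, hsz⟩ := hm1 z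
    refine ⟨s, hs, ?_⟩
    rw [← map_smul]
    rw [← hrange] at hsz
    obtain ⟨a, ha, b, hb, hab⟩ := Submodule.mem_sup.mp hsz
    rw [← hab, map_add]
    have h1 : (LinearMap.range φ).mkQ a = 0 := (Submodule.Quotient.mk_eq_zero _).mpr ha
    rw [h1, zero_add]
    have h2 := Submodule.mem_map_of_mem (f := (LinearMap.range φ).mkQ) hb
    rw [Submodule.map_smul''] at h2
    exact Submodule.smul_mono le_rfl le_top h2)
  have hs₁' : ∀ z : M, ∃ v, φ v = s₁ • z := by
    intro z
    have h1 := hs₁T ((LinearMap.range φ).mkQ z)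
    rw [← map_smul, Submodule.mkQ_apply, Submodule.Quotient.mk_eq_zero] at h1
    exact h1
  let J : Finset ι := Finset.univ.filter fun l => x l ∈ P
  obtain ⟨s₂, hs₂, hs₂K⟩ := exists_kill P (LinearMap.ker φ) (by
    rintro ⟨v, hv⟩
    have hvP : ∀ i, v i ∈ P := hm2 v (by
      rw [← hφ, LinearMap.mem_ker.mp hv]
      exact Submodule.zero_mem _)
    choose σ hσ hσv using fun i => hx (v i) (hvP i)
    have hJ : ∀ y ∈ Ideal.span {y | (∃ l, x l = y) ∧ y ∈ P}, ∃ c : ι → R, y = ∑ l ∈ J, x l * c l := by
      intro y hy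
      induction hy using Submodule.span_induction with
      | mem y hy =>
        obtain ⟨⟨l, rfl⟩, hl⟩ := hy
        refine ⟨fun l' => if l' = l then 1 else 0, ?_⟩
        rw [Finset.sum_eq_single l]
        · simp
        · intro b _ hb
          simp [hb]
        · intro h
          exact absurd (Finset.mem_filter.mpr ⟨Finset.mem_univ l, hl⟩) h
      | zero => exact ⟨fun _ => 0, by simp⟩
      | add a b _ _ ha hb =>
        obtain ⟨c, hc⟩ := ha
        obtain ⟨c', hc'⟩ := hb
        refine ⟨fun l => c l + c' l, ?_⟩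
        rw [hc, hc', ← Finset.sum_add_distrib]
        exact Finset.sum_congr rfl fun l _ => by ring
      | smul a b _ hb =>
        obtain ⟨c, hc⟩ := hb
        refine ⟨fun l => a * c l, ?_⟩
        rw [smul_eq_mul, hc, Finset.mul_sum]
        exact Finset.sum_congr rfl fun l _ => by ring
    choose c hc using fun i => hJ _ (hσv i)
    let σ' : R := ∏ i, σ i
    have hσ' : σ' ∉ P := by
      intro h
      rw [hP.prod_mem_iff] at h
      obtain ⟨i, -, hi⟩ := h
      exact hσ i hi
    let w : ι → (Fin r → R) := fun l i => (∏ i' ∈ Finset.univ.erase i, σ i') * c i l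
    have hw : σ' • v = ∑ l ∈ J, x l • w l := by
      funext i
      rw [Finset.sum_apply, Pi.smul_apply, smul_eq_mul]
      have h1 : σ' = σ i * ∏ i' ∈ Finset.univ.erase i, σ i' :=
        (Finset.mul_prod_erase Finset.univ σ (Finset.mem_univ i)).symm
      rw [h1, mul_right_comm, hc i, Finset.sum_mul]
      refine Finset.sum_congr rfl fun l _ => ?_
      rw [Pi.smul_apply, smul_eq_mul, mul_assoc, mul_comm (c i l)]
    obtain ⟨s, hs, k, hk, hks⟩ := relations_at P hM φ hs₁ hs₁' J w (by
      have h1 : ∑ l ∈ J, x l • φ (w l) = φ (∑ l ∈ J, x l • w l) := by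
        rw [map_sum]
        exact Finset.sum_congr rfl fun l _ => (map_smul _ _ _).symm
      rw [h1, ← hw, map_smul, LinearMap.mem_ker.mp hv, smul_zero])
    refine ⟨s * σ', fun h => (hP.mem_or_mem h).elim hs hσ', ?_⟩
    have h2 : (s * σ') • (⟨v, hv⟩ : LinearMap.ker φ) = ∑ l ∈ J, x l • (⟨k l, hk l⟩ : LinearMap.ker φ) := by
      apply Subtype.ext
      rw [Submodule.coe_smul, mul_smul, hw, hks, Submodule.coe_sum]
      rfl
    rw [h2]
    exact Submodule.sum_mem _ fun l hl => Submodule.smul_mem_smul (Finset.mem_filter.mp hl).2 trivial)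
  choose τ hτ using hs₁'
  let a : M →ₗ[R] (Fin r → R) :=
    { toFun := fun z => s₂ • τ z
      map_add' := by
        intro z z'
        have h1 : φ (τ (z + z') - τ z - τ z') = 0 := by
          rw [map_sub, map_sub, hτ, hτ, hτ, smul_add]
          abel
        have h2 := congrArg Subtype.val (hs₂K ⟨_, h1⟩)
        rw [Submodule.coe_smul, Submodule.coe_zero, smul_sub, smul_sub, sub_sub, sub_eq_zero] at h2
        exact h2
      map_smul' := by
        intro c z
        have h1 : φ (τ (c • z) - c • τ z) = 0 := by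
          rw [map_sub, map_smul, hτ, hτ, smul_comm, sub_self]
        have h2 := congrArg Subtype.val (hs₂K ⟨_, h1⟩)
        rw [Submodule.coe_smul, Submodule.coe_zero, smul_sub, sub_eq_zero] at h2
        rw [RingHom.id_apply, h2, smul_comm] }
  refine ⟨s₂ * s₁, fun h => (hP.mem_or_mem h).elim hs₂ hs₁, ?_⟩
  intro E _ _ g hg
  obtain ⟨ψ, hψ⟩ := Module.projective_lifting_property g φ hg
  refine ⟨ψ ∘ₗ a, ?_⟩
  ext z
  rw [← LinearMap.comp_assoc, hψ]
  change φ (s₂ • τ z) = _
  rw [map_smul, hτ, ← mul_smul]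
  rfl

end

end Pool.Agent.TH282.RE
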