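import Pool.Agent.TH282.RP.LimD
import Pool.Agent.TH282.RP.LocFree
import Pool.Agent.TH282.RE.Cut4
import Pool.Agent.TH282.RE.Final3

/-!
# Finitely many maximal Cohen-Macaulay ideals up to isomorphism, finite residue field
-/

set_option autoImplicit false
set_option linter.unusedSectionVars false

namespace Pool.Agent.TH282.RE

open IsLocalRing Pool.Agent.TH282.RG

universe u

section

variable {R : Type u} [CommRing R] {ι : Type*} [DecidableEq ι] [Fintype ι]
variable (t : ι → R) (J : Finset ι) (M : Type u) [AddCommGroup M] [Module R M]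
variable {κ : Type*} [DecidableEq κ] [Fintype κ] (j : κ → ι)

theorem QM_WW_iff (c : κ → ℕ) (K : Finset κ) (z : QM t J M) :
    z ∈ WW (R := R) (fun a => t (j a)) c K (QM t J M) ↔
      z ∈ WW (R := QR t J) (fun a => Ideal.Quotient.mk (W1 t J R : Ideal R) (t (j a))) c K
        (QM t J M) := by
  have h1 : ∀ w : κ → QM t J M, ∑ a ∈ K, (t (j a)) ^ c a • w a =
      ∑ a ∈ K, (Ideal.Quotient.mk (W1 t J R : Ideal R) (t (j a))) ^ c a • w a := by
    intro w
    refine Finset.sum_congr rfl fun a _ => ?_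
    rw [← map_pow]
    rfl
  constructor
  · rintro ⟨w, rfl⟩
    exact ⟨w, h1 w⟩
  · rintro ⟨w, rfl⟩
    exact ⟨w, (h1 w).symm⟩

theorem QM_reg' (hj : Function.Injective j) (hJ : ∀ a, j a ∉ J) (h : Reg t M) :
    Reg (R := R) (fun a => t (j a)) (QM t J M) := by
  intro i K c hi hc m z hz
  rw [QM_WW_iff] at hz ⊢
  apply QM_reg t J M j hj hJ h i K c hi hc m z
  rwa [← map_pow, mk_smul_QM]

theorem QM_length_eq (hj : Function.Injective j) (hJ : ∀ a, j a ∉ J) (hJj : ∀ l, l ∈ J ∨ ∃ a, j a = l) :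
    Module.length (QR t J) (QM t J M ⧸ WW (R := QR t J)
      (fun a => Ideal.Quotient.mk (W1 t J R : Ideal R) (t (j a))) (fun _ => 1) Finset.univ (QM t J M)) =
      Module.length R (M ⧸ WW t (fun _ => 1) Finset.univ M) := by
  set N : Submodule (QR t J) (QM t J M) := WW (R := QR t J)
      (fun a => Ideal.Quotient.mk (W1 t J R : Ideal R) (t (j a))) (fun _ => 1) Finset.univ (QM t J M) with hN
  have h0 : Module.length (QR t J) (QM t J M ⧸ N) = Module.length R (QM t J M ⧸ N) := by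
    first
    | exact Module.length_eq_of_surjective (S := R) (R := QR t J) Ideal.Quotient.mk_surjective
    | exact (Module.length_eq_of_surjective (S := R) (R := QR t J) Ideal.Quotient.mk_surjective).symm
  rw [h0]
  let q : M →ₗ[R] (QM t J M ⧸ N) := N.mkQ.restrictScalars R ∘ₗ mkQM t J M
  have hq : Function.Surjective q := (Submodule.mkQ_surjective _).comp (mkQM_surj t J M)
  have hk : LinearMap.ker q = WW t (fun _ => 1) Finset.univ M := by
    ext m
    rw [LinearMap.mem_ker]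
    change (Submodule.Quotient.mk (mkQM t J M m) : _ ⧸ N) = 0 ↔ _
    rw [Submodule.Quotient.mk_eq_zero, hN, QM_mem t J M j hj hJ]
    have h1 : Function.extend j (fun _ : κ => 1) (fun _ => 1) = fun _ => 1 := by
      funext l
      by_cases hl : ∃ a, j a = l
      · obtain ⟨a, rfl⟩ := hl
        rw [hj.extend_apply]
      · rw [Function.extend_apply' _ _ _ hl]
    have h2 : Finset.univ.image j ∪ J = Finset.univ := by
      rw [Finset.eq_univ_iff_forall]
      intro l
      rw [Finset.mem_union, Finset.mem_image]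
      rcases hJj l with hl | ⟨a, ha⟩
      · exact Or.inr hl
      · exact Or.inl ⟨a, Finset.mem_univ _, ha⟩
    rw [h1, h2]
  rw [← hk]
  exact (LinearEquiv.length_eq (q.quotKerEquivOfSurjective hq)).symm

theorem QM_mem_of (hj : Function.Injective j) (hJ : ∀ a, j a ∉ J) (hJj : ∀ l, l ∈ J ∨ ∃ a, j a = l)
    (b : ℕ) (hb : 1 ≤ b) (m : M) (hm : m ∈ WW t (fun _ => b) Finset.univ M) :
    mkQM t J M m ∈ WW (R := R) (fun a => t (j a)) (fun _ => b) Finset.univ (QM t J M) := by
  rw [QM_WW_iff, QM_mem t J M j hj hJ]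
  refine WW_mono ?_ ?_ hm
  · intro l _
    rw [Finset.mem_union, Finset.mem_image]
    rcases hJj l with hl | ⟨a, ha⟩
    · exact Or.inr hl
    · exact Or.inl ⟨a, Finset.mem_univ _, ha⟩
  · intro l _
    by_cases hl : ∃ a, j a = l
    · obtain ⟨a, rfl⟩ := hl
      rw [hj.extend_apply]
    · rw [Function.extend_apply' _ _ _ hl]
      exact hb

end

section

variable {R : Type u} [CommRing R] [IsLocalRing R] [IsNoetherianRing R]

theorem surj_of_fac {κ : Type*} [DecidableEq κ] [Fintype κ] {y : κ → R}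
    (hym : ∀ a, y a ∈ maximalIdeal R) {p : ℕ} {M : Type u} [AddCommGroup M] [Module R M]
    (π' : (Fin p → R) →ₗ[R] M) (hπ' : Function.Surjective π') (e : ℕ)
    (hfac : ∀ a, Fac (LinearMap.ker π') (y a) e) {X : Type u} [AddCommGroup X] [Module R X]
    [Module.Finite R X] (hX : Reg y X) (f : (Fin p → R) →ₗ[R] X) (hf : Function.Surjective f)
    (hfK : ∀ v ∈ LinearMap.ker π', f v ∈ WW y (fun _ => e + 1) Finset.univ X) :
    ∃ φ : M →ₗ[R] X, Function.Surjective φ := by
  obtain ⟨h, h1, h2⟩ := lift_true y (LinearMap.ker π') e (e + 1) hfac hX f hfK le_rfl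
  have h3 : e + 1 - e = 1 := by omega
  rw [h3] at h2
  have hh : Function.Surjective h := by
    rw [← LinearMap.range_eq_top, eq_top_iff]
    apply Submodule.le_of_le_smul_of_le_jacobson_bot (IsNoetherian.noetherian _)
      (IsLocalRing.maximalIdeal_le_jacobson _)
    intro z _
    obtain ⟨v, rfl⟩ := hf z
    have h4 : f v = h v - (h v - f v) := by abel
    rw [h4]
    exact Submodule.sub_mem _ (Submodule.mem_sup_left ⟨v, rfl⟩)
      (Submodule.mem_sup_right (WW1_le hym X (h2 v)))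
  have hle : LinearMap.ker π' ≤ LinearMap.ker h := fun v hv => h1 v hv
  let F : ((Fin p → R) ⧸ LinearMap.ker π') →ₗ[R] X := (LinearMap.ker π').liftQ h hle
  have hF : Function.Surjective F := by
    intro z
    obtain ⟨v, rfl⟩ := hh z
    exact ⟨Submodule.Quotient.mk v, rfl⟩
  refine ⟨F ∘ₗ (π'.quotKerEquivOfSurjective hπ').symm.toLinearMap, ?_⟩
  rw [LinearMap.coe_comp]
  exact hF.comp (LinearEquiv.surjective _)

theorem limit_iso [IsDomain R] (d : ℕ) (hd : ringKrullDim R = d) (hD : Dp (R := R) d R)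
    (hR2 : ∀ (P : Ideal R) [P.IsPrime], P.height ≤ 2 → IsRegularLocalRing (Localization.AtPrime P))
    (𝒰 : Ultrafilter ℕ) (I : ℕ → Ideal R) (hI : ∀ n, I n ≠ ⊥ ∧ Dp (R := R) d (I n))
    (p : ℕ) (π : ∀ n, (Fin p → R) →ₗ[R] I n) (I' : Ideal R) (π' : (Fin p → R) →ₗ[R] I')
    (hπ : ∀ n, Function.Surjective (π n)) (hπ' : Function.Surjective π') (hI' : I' ≠ ⊥)
    (hI'D : Dp (R := R) d I')
    (hlim : ∀ L, ∀ᶠ n in (𝒰 : Filter ℕ), LinearMap.ker (π n) ⊔ EL R p L = LinearMap.ker π' ⊔ EL R p L) :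
    ∀ᶠ n in (𝒰 : Filter ℕ), Nonempty (I' ≃ₗ[R] I n) := by
  classical
  have hreg : ∀ (P : Ideal R) [P.IsPrime], P.height < 2 → IsRegularLocalRing (Localization.AtPrime P) :=
    fun P _ h => hR2 P h.le
  let 𝔠 : Ideal R :=
    { carrier := {r | ExtAnn R I' r}
      add_mem' := fun {a b} ha hb => ExtAnn.add ha hb
      zero_mem' := ExtAnn.zero
      smul_mem' := fun a b hb => (show ExtAnn R I' b from hb).mul a }
  have hht : ∀ Q : Ideal R, Q.IsPrime → Q.height < 3 → ¬ 𝔠 ≤ Q := by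
    intro Q hQ hht hle
    obtain ⟨x, hxm, hx, hxQ⟩ := exists_param Q (hR2 Q (by
      have h3 : (3 : ℕ∞) = 2 + 1 := by norm_num
      rw [h3] at hht
      exact Order.le_of_lt_add_one hht)) d hd
    obtain ⟨r, hrQ, hr⟩ := extAnn_at Q hxQ I' (reg_of_mcm hxm hx I' (by rwa [Fintype.card_fin]))
    exact hrQ (hle hr)
  have hmem : ∀ {x : Fin d → R} (hx : ∃ T, maximalIdeal R ^ T ≤ Ideal.span (Set.range x)) (b : ℕ),
      ∀ᶠ n in (𝒰 : Filter ℕ), ∀ v ∈ LinearMap.ker π', π n v ∈ WW x (fun _ => b) Finset.univ (I n) := by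
    intro x hx b
    obtain ⟨L, hL⟩ := exists_EL_le hx (fun _ => b)
    filter_upwards [hlim L] with n hn v hv
    have h1 : v ∈ LinearMap.ker (π n) ⊔ EL R p L := by
      rw [hn]
      exact Submodule.mem_sup_left hv
    obtain ⟨k, hk, w, hw, rfl⟩ := Submodule.mem_sup.mp h1
    rw [map_add, LinearMap.mem_ker.mp hk, zero_add]
    exact hL p (I n) (π n) w hw
  by_cases h3 : 3 ≤ d
  · obtain ⟨x, hxm, hx, hxc⟩ := exists_sop_in d hd 𝔠 3 hht
    let J : Finset (Fin d) := Finset.univ.filter fun l => 3 ≤ (l : ℕ)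
    have hJmem : ∀ l, l ∈ J ↔ 3 ≤ (l : ℕ) := fun l => by simp [J]
    let j : Fin 3 → Fin d := Fin.castLE h3
    have hjinj : Function.Injective j := Fin.castLE_injective h3
    have hjJ : ∀ a, j a ∉ J := by
      intro a ha
      rw [hJmem] at ha
      have : ((j a : Fin d) : ℕ) = (a : ℕ) := rfl
      have := a.2
      omega
    have hJj : ∀ l, l ∈ J ∨ ∃ a, j a = l := by
      intro l
      by_cases hl : 3 ≤ (l : ℕ)
      · exact Or.inl ((hJmem l).mpr hl)
      · exact Or.inr ⟨⟨l, by omega⟩, Fin.ext rfl⟩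
    have hR : Reg x R := reg_of_mcm hxm hx R (by rwa [Fintype.card_fin])
    have hle : (W1 x J R : Ideal R) ≤ maximalIdeal R := by
      rintro _ ⟨w, rfl⟩
      refine Submodule.sum_mem _ fun l hl => ?_
      rw [pow_one]
      exact Ideal.mul_mem_right _ _ (hxm l)
    have hnt : Nontrivial (QR x J) := by
      rw [Ideal.Quotient.nontrivial_iff]
      intro htop
      rw [htop] at hle
      exact (maximalIdeal.isMaximal R).ne_top (top_le_iff.mp hle)
    have hloc : IsLocalRing (QR x J) :=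
      IsLocalRing.of_surjective' (Ideal.Quotient.mk (W1 x J R : Ideal R)) Ideal.Quotient.mk_surjective
    have hlh : IsLocalHom (Ideal.Quotient.mk (W1 x J R : Ideal R)) :=
      IsLocalHom.of_surjective _ Ideal.Quotient.mk_surjective
    have hmm : ∀ r : R, r ∈ maximalIdeal R →
        Ideal.Quotient.mk (W1 x J R : Ideal R) r ∈ maximalIdeal (QR x J) := fun r hr hu =>
      hr (hlh.map_nonunit r hu)
    have hmax : maximalIdeal (QR x J) ≤
        (maximalIdeal R).map (Ideal.Quotient.mk (W1 x J R : Ideal R)) := by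
      intro y hy
      obtain ⟨r, rfl⟩ := Ideal.Quotient.mk_surjective y
      apply Ideal.mem_map_of_mem
      intro hu
      exact hy (hu.map _)
    let x' : Fin 3 → QR x J := fun a => Ideal.Quotient.mk (W1 x J R : Ideal R) (x (j a))
    have hx'm : ∀ a, x' a ∈ maximalIdeal (QR x J) := fun a => hmm _ (hxm _)
    have hx' : ∃ T, maximalIdeal (QR x J) ^ T ≤ Ideal.span (Set.range x') := by
      obtain ⟨T, hT⟩ := hx
      refine ⟨T, ?_⟩
      calc maximalIdeal (QR x J) ^ T
          ≤ ((maximalIdeal R).map (Ideal.Quotient.mk (W1 x J R : Ideal R))) ^ T :=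
            Ideal.pow_right_mono hmax T
        _ = (maximalIdeal R ^ T).map (Ideal.Quotient.mk (W1 x J R : Ideal R)) := (Ideal.map_pow _ _ _).symm
        _ ≤ (Ideal.span (Set.range x)).map (Ideal.Quotient.mk (W1 x J R : Ideal R)) := Ideal.map_mono hT
        _ ≤ _ := by
          rw [Ideal.map_span, Ideal.span_le]
          rintro _ ⟨_, ⟨l, rfl⟩, rfl⟩
          rcases hJj l with hl | ⟨a, rfl⟩
          · have h2 : Ideal.Quotient.mk (W1 x J R : Ideal R) (x l) = 0 := by
              rw [Ideal.Quotient.eq_zero_iff_mem]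
              have := WW_single (x := x) (c := fun _ => 1) (X := R) hl 1
              simpa using this
            rw [SetLike.mem_coe, h2]
            exact Ideal.zero_mem _
          · exact Ideal.subset_span ⟨a, rfl⟩
    obtain ⟨p₁, f₁, hf₁⟩ := Module.Finite.exists_fin' R (LinearMap.ker π')
    let i₁ : (Fin p₁ → R) →ₗ[R] (Fin p → R) := (LinearMap.ker π').subtype ∘ₗ f₁
    have hz : ∀ w, π' (i₁ w) = 0 := fun w => (f₁ w).2
    have hker : ∀ v, π' v = 0 → ∃ w, i₁ w = v := by
      intro v hv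
      obtain ⟨w, hw⟩ := hf₁ ⟨v, hv⟩
      exact ⟨w, congrArg Subtype.val hw⟩
    have hIR' : Reg x I' := reg_of_mcm hxm hx I' (by rwa [Fintype.card_fin])
    have hfac : ∀ a : Fin 3, Fac (LinearMap.ker π') (x (j a)) 1 := by
      intro a
      apply fac_of_extAnn π' hπ'
      rw [pow_one]
      exact hxc _ a.2
    have hne : ∀ a b : Fin 3, a ≠ b → j a ≠ j b := fun a b hab h => hab (hjinj h)
    have hH := HH_all hπ' hz hker hR hIR' (hne 0 1 (by decide)) (hne 0 2 (by decide))
      (hne 1 2 (by decide)) (hfac 0) (hfac 1) (hfac 2) (HH_ideal d hd hD hreg x I' hI') J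
      (hjJ 0) (hjJ 1) (hjJ 2)
    have hEE : EE i₁ (I' ⧸ W1 x J I') := EE_of_HH hπ' hz hker hR hIR' (hne 0 1 (by decide))
      (hne 0 2 (by decide)) (hne 1 2 (by decide)) (hfac 0) (hfac 1) (hfac 2) (hjJ 0) (hjJ 1) (hjJ 2) hH
    filter_upwards [hmem hx 2, length_limit hx (fun _ => 1) 𝒰 I π hπ I' π' hπ' hlim] with n hn hlen
    have hIRn : Reg x (I n) := reg_of_mcm hxm hx (I n) (by rw [Fintype.card_fin]; exact (hI n).2)
    have hfin : Module.Finite R (QM x J (I n)) := Module.Finite.of_surjective _ (mkQM_surj x J (I n))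
    obtain ⟨φ, hφ⟩ := surj_of_fac (y := fun a => x (j a)) (fun a => hxm _) π' hπ' 1 hfac
      (X := QM x J (I n)) (QM_reg' x J (I n) j hjinj hjJ hIRn) (mkQM x J (I n) ∘ₗ π n)
      ((mkQM_surj x J (I n)).comp (hπ n)) (fun v hv => QM_mem_of x J (I n) j hjinj hjJ hJj 2
        (by norm_num) _ (hn v hv))
    obtain ⟨F, hF⟩ := QM_factor x J I' φ (fun m hm => W1_killed x J (WW_map φ hm))
    have hFs : Function.Surjective F := by
      intro z
      obtain ⟨m, rfl⟩ := hφ z
      exact ⟨mkQM x J I' m, hF m⟩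
    let F' : QM x J I' →ₗ[QR x J] QM x J (I n) := F.extendScalarsOfSurjective Ideal.Quotient.mk_surjective
    have hF's : Function.Surjective F' := hFs
    have hF'i : Function.Injective F' := by
      apply inj_of_surj' hx'm hx' (QM_reg x J I' j hjinj hjJ hIR') (QM_reg x J (I n) j hjinj hjJ hIRn) _ F' hF's
      rw [QM_length_eq x J I' j hjinj hjJ hJj, QM_length_eq x J (I n) j hjinj hjJ hJj, hlen]
    let e : QM x J I' ≃ₗ[R] QM x J (I n) := LinearEquiv.ofBijective F ⟨hF'i, hFs⟩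
    have hE : EE i₁ (QM x J (I n)) := EE.of_equiv e hEE
    obtain ⟨Ψ, hΨ⟩ := surj_lift hπ' hz hker hIRn J hxm hE φ hφ
    exact equiv_of_surj (hI n).1 Ψ hΨ
  · have h𝔠1 : 𝔠 = ⊤ := by
      by_contra hne
      refine hht (maximalIdeal R) inferInstance ?_ (le_maximalIdeal hne)
      have h4 : ((maximalIdeal R).height : WithBot ℕ∞) = ringKrullDim R :=
        IsLocalRing.maximalIdeal_height_eq_ringKrullDim
      rw [hd] at h4
      have h5 : (maximalIdeal R).height = d := by exact_mod_cast h4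
      rw [h5]
      exact_mod_cast (by omega : d < 3)
    obtain ⟨x, hxm, hx, -⟩ := exists_sop_in d hd ⊤ 0 (fun Q _ h => absurd h (by simp))
    have h1 : ExtAnn R I' (1 : R) := by
      have : (1 : R) ∈ 𝔠 := by
        rw [h𝔠1]
        trivial
      exact this
    filter_upwards [hmem hx 1] with n hn
    have hIRn : Reg x (I n) := reg_of_mcm hxm hx (I n) (by rw [Fintype.card_fin]; exact (hI n).2)
    obtain ⟨φ, hφ⟩ := surj_of_fac (y := x) hxm π' hπ' 0
      (fun a => fac_of_extAnn π' hπ' (x a) 0 (by rwa [pow_zero])) hIRn (π n) (hπ n) hn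
    exact equiv_of_surj (hI n).1 φ hφ

theorem finite_mcm_ideals_finite_residue [Finite (ResidueField R)]
    (hc : IsAdicComplete (maximalIdeal R) R)
    (hCM : ∃ rs : List R, (∀ r ∈ rs, r ∈ maximalIdeal R) ∧ RingTheory.Sequence.IsRegular R rs ∧
      (rs.length : WithBot ℕ∞) = ringKrullDim R)
    (hR2 : ∀ (P : Ideal R) [P.IsPrime], P.height ≤ 2 → IsRegularLocalRing (Localization.AtPrime P)) :
    ∃ (n : ℕ) (J : Fin n → Ideal R), ∀ I : Ideal R, I ≠ ⊥ →
      (∃ rs : List R, (∀ r ∈ rs, r ∈ maximalIdeal R) ∧ RingTheory.Sequence.IsRegular I rs ∧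
        (rs.length : WithBot ℕ∞) = ringKrullDim R) →
      ∃ j : Fin n, Nonempty (I ≃ₗ[R] J j) := by
  classical
  obtain ⟨s, -, -, hd⟩ := exists_sop R
  have hDp : ∀ (M : Type u) [AddCommGroup M] [Module R M],
      (∃ rs : List R, (∀ r ∈ rs, r ∈ maximalIdeal R) ∧ RingTheory.Sequence.IsRegular M rs ∧
        (rs.length : WithBot ℕ∞) = ringKrullDim R) → Dp (R := R) s.card M := by
    intro M _ _ hM
    obtain ⟨rs, hrm, hw, hlen⟩ := hM
    refine ⟨rs, ?_, hrm, hw⟩
    rw [hd] at hlen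
    exact_mod_cast hlen
  have hD := hDp R hCM
  have hreg : ∀ (P : Ideal R) [P.IsPrime], P.height < 2 → IsRegularLocalRing (Localization.AtPrime P) :=
    fun P _ h => hR2 P h.le
  have hdom : IsDomain R := isDomain_of s.card hd hD hreg
  by_contra hcon
  push Not at hcon
  obtain ⟨I, hI, hIr⟩ := exists_seq_of_forall_finset_exists
    (fun I : Ideal R => I ≠ ⊥ ∧ Dp (R := R) s.card I) (fun I I' => ¬ Nonempty (I' ≃ₗ[R] I)) (by
      intro S _
      obtain ⟨I, hI, hID, hIS⟩ := hcon S.card (fun i => (S.equivFin.symm i : Ideal R))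
      refine ⟨I, ⟨hI, hDp I hID⟩, fun K hK => ?_⟩
      have h1 := hIS (S.equivFin ⟨K, hK⟩)
      rw [Equiv.symm_apply_apply] at h1
      rw [not_nonempty_iff]
      exact h1)
  let 𝒰 : Ultrafilter ℕ := Filter.hyperfilter ℕ
  obtain ⟨p, π, I', π', hπ, hπ', hI', hI'D, hlim⟩ := limit_ideal hc s.card hd hD 𝒰 I hI
  have h1 := limit_iso s.card hd hD hR2 𝒰 I hI p π I' π' hπ hπ' hI' hI'D hlim
  have h2 : {n | Nonempty (I' ≃ₗ[R] I n)}.Infinite := by
    intro hfin
    exact Filter.notMem_hyperfilter_of_finite hfin h1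
  obtain ⟨a, ⟨ea⟩⟩ := h2.nonempty
  obtain ⟨b, ⟨eb⟩, hab⟩ := h2.exists_gt a
  exact hIr a b hab ⟨eb.symm.trans ea⟩

end

end Pool.Agent.TH282.RE
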