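import Mathlib

/-!
# p-degrees of fields
-/

set_option autoImplicit false
set_option linter.unusedSectionVars false

namespace Pool.Agent.TH282.RE

section

variable {L : Type*} [Field L] (p : ℕ) [hp : Fact p.Prime] [CharP L p]

/-- the field generated over `K` by the first `j` members of a sequence -/
def ch (K : Subfield L) (y : ℕ → L) (j : ℕ) : Subfield L :=
  Subfield.closure ((K : Set L) ∪ y '' {i | i < j})

theorem le_ch (K : Subfield L) (y : ℕ → L) (j : ℕ) : K ≤ ch K y j :=
  fun _ hx => Subfield.subset_closure (Or.inl hx)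

theorem mem_ch (K : Subfield L) (y : ℕ → L) {i j : ℕ} (h : i < j) : y i ∈ ch K y j :=
  Subfield.subset_closure (Or.inr ⟨i, h, rfl⟩)

theorem ch_zero (K : Subfield L) (y : ℕ → L) : ch K y 0 = K := by
  rw [ch]
  have : y '' {i | i < 0} = ∅ := by
    ext x
    simp
  rw [this, Set.union_empty, Subfield.closure_eq]

theorem ch_mono (K : Subfield L) (y : ℕ → L) {i j : ℕ} (h : i ≤ j) : ch K y i ≤ ch K y j := by
  apply Subfield.closure_mono
  apply Set.union_subset_union_right
  apply Set.image_mono
  intro l hl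
  exact lt_of_lt_of_le hl h

theorem ch_succ (K : Subfield L) (y : ℕ → L) (j : ℕ) :
    ch K y (j + 1) = Subfield.closure (insert (y j) (ch K y j : Set L)) := by
  apply le_antisymm
  · rw [ch, Subfield.closure_le]
    rintro x (hx | ⟨i, hi, rfl⟩)
    · exact Subfield.subset_closure (Set.mem_insert_of_mem _ (le_ch K y j hx))
    · rcases Nat.lt_succ_iff_lt_or_eq.mp hi with h | h
      · exact Subfield.subset_closure (Set.mem_insert_of_mem _ (mem_ch K y h))
      · subst h
        exact Subfield.subset_closure (Set.mem_insert _ _)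
  · rw [Subfield.closure_le, Set.insert_subset_iff]
    exact ⟨mem_ch K y (Nat.lt_succ_self j), ch_mono K y (Nat.le_succ j)⟩

theorem relfin_step (K : Subfield L) (x : L) (hx : x ^ p ∈ K) (hxK : x ∉ K) :
    K.relfinrank (Subfield.closure (insert x (K : Set L))) = p := by
  have hle : K ≤ Subfield.closure (insert x (K : Set L)) := fun y hy =>
    Subfield.subset_closure (Set.mem_insert_of_mem _ hy)
  rw [Subfield.relfinrank_eq_finrank_of_le hle]
  have h1 : Subfield.extendScalars hle = IntermediateField.adjoin K {x} := by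
    apply le_antisymm
    · intro y hy
      have hy' : y ∈ Subfield.closure (insert x (K : Set L)) := hy
      have h2 : Subfield.closure (insert x (K : Set L)) ≤ (IntermediateField.adjoin K {x}).toSubfield := by
        rw [Subfield.closure_le, Set.insert_subset_iff]
        refine ⟨IntermediateField.mem_adjoin_simple_self K x, ?_⟩
        intro y hy
        exact (IntermediateField.adjoin K {x}).algebraMap_mem ⟨y, hy⟩
      exact h2 hy'
    · rw [IntermediateField.adjoin_le_iff, Set.singleton_subset_iff]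
      exact Subfield.subset_closure (Set.mem_insert _ _)
  have hirr : Irreducible (Polynomial.X ^ p - Polynomial.C (⟨x ^ p, hx⟩ : K)) := by
    apply X_pow_sub_C_irreducible_of_prime hp.out
    intro b hb
    apply hxK
    have h3 : (b : L) ^ p = x ^ p := congrArg Subtype.val hb
    have h4 : (b : L) = x := frobenius_inj L p h3
    rw [← h4]
    exact b.2
  have hmon : (Polynomial.X ^ p - Polynomial.C (⟨x ^ p, hx⟩ : K)).Monic :=
    Polynomial.monic_X_pow_sub_C _ hp.out.ne_zero
  have haev : Polynomial.aeval x (Polynomial.X ^ p - Polynomial.C (⟨x ^ p, hx⟩ : K)) = 0 := by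
    rw [map_sub, map_pow, Polynomial.aeval_X, Polynomial.aeval_C, sub_eq_zero]
    rfl
  have hmin := minpoly.eq_of_irreducible_of_monic hirr haev hmon
  have hint : IsIntegral K x := ⟨_, hmon, haev⟩
  rw [h1, IntermediateField.adjoin.finrank hint, ← hmin, Polynomial.natDegree_X_pow_sub_C]

theorem chain_strict (K : Subfield L) (y : ℕ → L) (hy : ∀ i, y i ^ p ∈ K) (m : ℕ)
    (h : ∀ j < m, y j ∉ ch K y j) : K.relfinrank (ch K y m) = p ^ m := by
  induction m with
  | zero => rw [ch_zero, Subfield.relfinrank_self, pow_zero]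
  | succ m ih =>
    rw [← Subfield.relfinrank_mul_relfinrank (le_ch K y m) (ch_mono K y (Nat.le_succ m)),
      ih (fun j hj => h j (by omega)), ch_succ,
      relfin_step p _ _ (le_ch K y m (hy m)) (h m (Nat.lt_succ_self m)), pow_succ]

theorem chain_le (K : Subfield L) (y : ℕ → L) (hy : ∀ i, y i ^ p ∈ K) (m : ℕ) :
    ∃ m' ≤ m, K.relfinrank (ch K y m) = p ^ m' := by
  induction m with
  | zero => exact ⟨0, le_rfl, by rw [ch_zero, Subfield.relfinrank_self, pow_zero]⟩
  | succ m ih =>
    obtain ⟨m', hm', h⟩ := ih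
    by_cases hm : y m ∈ ch K y m
    · refine ⟨m', by omega, ?_⟩
      have h1 : ch K y (m + 1) = ch K y m := by
        rw [ch_succ, Set.insert_eq_of_mem (show y m ∈ (ch K y m : Set L) from hm), Subfield.closure_eq]
      rw [h1, h]
    · refine ⟨m' + 1, by omega, ?_⟩
      rw [← Subfield.relfinrank_mul_relfinrank (le_ch K y m) (ch_mono K y (Nat.le_succ m)), h, ch_succ,
        relfin_step p _ _ (le_ch K y m (hy m)) hm, pow_succ]

/-- the field of p-th powers -/
def Lp (L : Type*) [Field L] (p : ℕ) [Fact p.Prime] [CharP L p] : Subfield L := (frobenius L p).fieldRange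

theorem pow_mem_Lp (x : L) : x ^ p ∈ Lp L p := ⟨x, rfl⟩

/-- a p-independent sequence in a field finite over `F₀` has at most as many elements as any
p-generating sequence of `F₀` -/
theorem pdeg_le (F₀ : Subfield L) (hfin : Module.finrank F₀ L ≠ 0) (c : ℕ) (y : ℕ → L)
    (hy : ∀ i, y i ∈ F₀) (hgen : F₀ ≤ ch (F₀.map (frobenius L p)) y c) (z : ℕ → L) (m : ℕ)
    (hz : ∀ j < m, z j ∉ ch (Lp L p) z j) : m ≤ c := by
  have hF : F₀.map (frobenius L p) ≤ F₀ := by
    rintro _ ⟨x, hx, rfl⟩
    exact pow_mem hx p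
  have hFL : F₀.map (frobenius L p) ≤ Lp L p := by
    rintro _ ⟨x, hx, rfl⟩
    exact ⟨x, rfl⟩
  have hLp : Lp L p = (⊤ : Subfield L).map (frobenius L p) := by
    rw [Lp, RingHom.fieldRange_eq_map]
  have hch : ch (F₀.map (frobenius L p)) y c = F₀ := by
    apply le_antisymm _ hgen
    rw [ch, Subfield.closure_le]
    rintro x (hx | ⟨i, _, rfl⟩)
    · exact hF hx
    · exact hy i
  obtain ⟨c', hc', h1⟩ := chain_le p (F₀.map (frobenius L p)) y (fun i => ⟨y i, hy i, rfl⟩) c
  rw [hch] at h1
  have h2 := Subfield.relfinrank_mul_relfinrank hF (le_top : F₀ ≤ ⊤)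
  have h3 := Subfield.relfinrank_mul_relfinrank hFL (le_top : Lp L p ≤ ⊤)
  have h4 : (F₀.map (frobenius L p)).relfinrank (Lp L p) = F₀.relfinrank ⊤ := by
    rw [hLp, Subfield.relfinrank_map_map]
  rw [h4, ← h2, h1, mul_comm] at h3
  have h5 : F₀.relfinrank ⊤ ≠ 0 := by rwa [Subfield.relfinrank_top_right]
  have h6 : (Lp L p).relfinrank ⊤ = p ^ c' := Nat.eq_of_mul_eq_mul_right (Nat.pos_of_ne_zero h5) h3
  have h7 := chain_strict p (Lp L p) z (fun i => pow_mem_Lp p (z i)) m hz
  have h8 := Subfield.relfinrank_mul_relfinrank (le_ch (Lp L p) z m) (le_top : ch (Lp L p) z m ≤ ⊤)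
  rw [h7, h6] at h8
  have h9 : p ^ m ∣ p ^ c' := Dvd.intro _ h8
  exact ((Nat.pow_dvd_pow_iff_le_right hp.out.one_lt).mp h9).trans hc'

end

end Pool.Agent.TH282.RE
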